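import Mathlib

/-!
# Charts of a resolution, and the zeta function of a general member: definitions
-/

set_option autoImplicit false

namespace Pool.Agent.H63.VI

open MvPowerSeries

/-- Let `h : Y → ℂ ^ n` be a morphism of smooth varieties of dimension `n`, `E i` (`i ∈ J`) divisors
with normal crossings on `Y` and `y` a point of `Y` which lies on the `E i` with `i ∈ T`, and on no
others. In formal local coordinates `X_1, …, X_n` of `Y` at `y` such that `X_{e i}` is a local equation
of `E i` for `i ∈ T`, the map `h` is given by the power series `x`. The conditions are: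

* the determinant of the Jacobian matrix of `h` is a unit times the product of the
  `X_{e i} ^ (k i)`, `i ∈ T` (so `k i` is the multiplicity of `E i` in the divisor of
  `h ^ * (dx_1 ∧ ⋯ ∧ dx_n)`);
* `P ∘ h` is a unit times the product of the `X_{e i} ^ (a' i)`, `i ∈ T`;
* `g_j ∘ h` is the product of the `X_{e i} ^ (a i)`, `i ∈ T`, times the power series `w j`. -/
structure IsChart {n : ℕ} {ρ J : Type} (P : MvPolynomial (Fin n) ℂ)
    (g : ρ → MvPolynomial (Fin n) ℂ) (k a' a : J → ℕ) (T : Finset J)
    (x : Fin n → MvPowerSeries (Fin n) ℂ) (e : J → Fin n) (w : ρ → MvPowerSeries (Fin n) ℂ) :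
    Prop where
  inj : Set.InjOn e T
  jac : ∃ U : MvPowerSeries (Fin n) ℂ, constantCoeff U ≠ 0 ∧
    (Matrix.of fun t i => pderiv ℂ t (x i)).det = (∏ i ∈ T, X (e i) ^ k i) * U
  ord : ∃ V : MvPowerSeries (Fin n) ℂ, constantCoeff V ≠ 0 ∧
    MvPolynomial.aeval x P = (∏ i ∈ T, X (e i) ^ a' i) * V
  quot : ∀ j, MvPolynomial.aeval x (g j) = (∏ i ∈ T, X (e i) ^ a i) * w j

/-- The morphism to projective space which is given by the power series `w j` is defined at the origin,
and it is an immersion there, in the directions of the coordinates in `R`: the vectors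
`w (0) = (w_j (0))_j` and `(∂ w / ∂ X_t) (0)`, `t ∈ R`, are linearly independent. -/
def Immersion {n : ℕ} {ρ : Type} (w : ρ → MvPowerSeries (Fin n) ℂ) (R : Set (Fin n)) : Prop :=
  LinearIndependent ℂ fun t : Option R => fun j : ρ =>
    match t with
    | none => constantCoeff (w j)
    | some t => coeff (Finsupp.single t.1 1) (w j)

open Classical in
/-- The order of the root `-α` which is proved if `c` divisors `E i` with `ν i = α N i` have a common
point on a variety of dimension `n`: it is `c`, but `c + 1` if `α = 1` and `c < n`, and `c - 1` if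
`c = n` and `α` is an integer, `α ≥ 2`. -/
noncomputable def exm (n c : ℕ) (α : ℚ) : ℕ :=
  if c = n then (if ∃ q : ℕ, 2 ≤ q ∧ α = q then c - 1 else c) else (if α = 1 then c + 1 else c)

/-- The zeta function with the numerical data `N i`, `ν i` (`i ∈ J`):
`∑_S (χ S + χ' S / (s + 1)) ∏_{i ∈ S} 1 / (N i s + ν i)`. -/
noncomputable def zeta {J : Type} [Fintype J] (N ν : J → ℕ) (χ χ' : Finset J → ℤ) : RatFunc ℂ :=
  ∑ S : Finset J, ((χ S : RatFunc ℂ) + (χ' S : RatFunc ℂ) * (RatFunc.X + 1)⁻¹) *
    ∏ i ∈ S, ((N i : RatFunc ℂ) * RatFunc.X + (ν i : RatFunc ℂ))⁻¹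

/-- The condition on the resolution. Let `N i = a' i + m * a i` and `ν i = k i + 1`. For all `S` which
contribute to the zeta function (`χ S ≠ 0` or `χ' S ≠ 0`) and all rational numbers `α`, let `T` be the
set of the `i ∈ S` with `ν i = α N i`. If `T` is not empty then there is a point on the `E i`, `i ∈ T`,
and on no others, at which the morphism given by the `g j` is an immersion; or `T = {i}`, `α ≠ 1` and
there is such a point at which the restriction of this morphism to `E i` is an immersion. -/
def Covered {n : ℕ} {ρ J : Type} (P : MvPolynomial (Fin n) ℂ) (g : ρ → MvPolynomial (Fin n) ℂ)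
    (m : ℕ) (k a' a : J → ℕ) (χ χ' : Finset J → ℤ) : Prop :=
  ∀ S, (χ S ≠ 0 ∨ χ' S ≠ 0) → ∀ T : Finset J, T.Nonempty → ∀ α : ℚ,
    (∀ i, i ∈ T ↔ i ∈ S ∧ (k i : ℚ) + 1 = α * (a' i + m * a i : ℕ)) →
    ∃ x e w, IsChart P g k a' a T x e w ∧
      (Immersion w Set.univ ∨ (α ≠ 1 ∧ ∃ i, T = {i} ∧ Immersion w {t | t ≠ e i}))

end Pool.Agent.H63.VI
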