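import Pool.Agent.H63.VI.GenMain
import Pool.Agent.H63.VI.Defs

set_option autoImplicit false
set_option linter.unusedSectionVars false

/-! # The roots which come from a chart: the form of the final theorem -/

namespace Pool.Agent.H63.VI

open MvPolynomial Pool.Agent.H63.VG Pool.Agent.H628R4.TP

section Dual

/-- dual vectors -/
theorem exists_dual {ι ρ : Type} [Fintype ρ] [DecidableEq ρ] [DecidableEq ι] (v : ι → ρ → ℂ)
    (hv : LinearIndependent ℂ v) :
    ∃ L : ι → ρ → ℂ, ∀ t s, ∑ j, L t j * v s j = if s = t then 1 else 0 := by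
  obtain ⟨f, hf⟩ := LinearMap.exists_leftInverse_of_injective (Finsupp.linearCombination ℂ v)
    (LinearMap.ker_eq_bot.2 hv)
  refine ⟨fun t j => f (Pi.single j 1) t, fun t s => ?_⟩
  have h1 : f (v s) = Finsupp.single s 1 := by
    have h2 := LinearMap.congr_fun hf (Finsupp.single s 1)
    rw [LinearMap.comp_apply, Finsupp.linearCombination_single, one_smul] at h2
    exact h2
  have h3 : v s = ∑ j, v s j • (Pi.single j 1 : ρ → ℂ) := by
    funext i
    rw [Finset.sum_apply, Finset.sum_eq_single i]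
    · simp
    · intro j _ hj
      simp [hj.symm]
    · intro h; exact absurd (Finset.mem_univ _) h
  have h4 : f (v s) t = ∑ j, f (Pi.single j 1) t * v s j := by
    conv_lhs => rw [h3]
    rw [map_sum, Finsupp.finsetSum_apply]
    refine Finset.sum_congr rfl fun j _ => ?_
    rw [map_smul, Finsupp.smul_apply, smul_eq_mul, mul_comm]
  rw [← h4, h1, Finsupp.single_apply]

end Dual

section Conv

variable {J : Type} [DecidableEq J] {n : ℕ}

/-- the exponents of the coordinates -/
def cex (e : J → Fin n) (T : Finset J) (k : J → ℕ) (t : Fin n) : ℕ :=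
  ∑ i ∈ T.filter (fun i => e i = t), k i

theorem prod_cex (e : J → Fin n) (T : Finset J) (k : J → ℕ) :
    (∏ i ∈ T, (MvPowerSeries.X (e i) : MvPowerSeries (Fin n) ℂ) ^ k i) =
      ∏ t, MvPowerSeries.X t ^ cex e T k t := by
  rw [← Finset.prod_fiberwise T e]
  refine Finset.prod_congr rfl fun t _ => ?_
  rw [cex, ← Finset.prod_pow_eq_pow_sum]
  refine Finset.prod_congr rfl fun i hi => ?_
  rw [(Finset.mem_filter.1 hi).2]

theorem cex_mem {e : J → Fin n} {T : Finset J} (he : Set.InjOn e T) (k : J → ℕ) {i : J}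
    (hi : i ∈ T) : cex e T k (e i) = k i := by
  rw [cex, Finset.sum_eq_single i]
  · intro j hj hji
    have h1 := Finset.mem_filter.1 hj
    exact absurd (he h1.1 hi h1.2) hji
  · intro h
    exact absurd (Finset.mem_filter.2 ⟨hi, rfl⟩ : i ∈ T.filter fun j => e j = e i) h

theorem cex_notMem {e : J → Fin n} {T : Finset J} (k : J → ℕ) {t : Fin n}
    (ht : t ∉ T.image e) : cex e T k t = 0 := by
  rw [cex, Finset.sum_eq_zero]
  intro i hi
  have h1 := Finset.mem_filter.1 hi
  exact absurd (Finset.mem_image.2 ⟨i, h1.1, h1.2⟩) ht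

theorem rat_of {e : J → Fin n} {T : Finset J} (he : Set.InjOn e T) (k a' a : J → ℕ) (m : ℕ)
    (hN : ∀ i, 1 ≤ a' i + m * a i) (α : ℚ) (hα : 0 < α)
    (h : ∀ i ∈ T, ((k i : ℚ) + 1) = α * (a' i + m * a i : ℕ)) :
    Rat (cex e T k) (fun t => cex e T a' t + m * cex e T a t) (T.image e) α where
  pos := hα
  mem := by
    intro t ht
    obtain ⟨i, hi, rfl⟩ := Finset.mem_image.1 ht
    rw [cex_mem he k hi, cex_mem he a' hi, cex_mem he a hi]
    refine ⟨?_, h i hi⟩
    have := hN i
    omega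
  notMem := by
    intro t ht
    rw [cex_notMem k ht, cex_notMem a' ht, cex_notMem a ht]
    simp

variable {ρ : Type} [Fintype ρ] [DecidableEq ρ] {P : MvPolynomial (Fin n) ℂ}
  {g : ρ → MvPolynomial (Fin n) ℂ} {k a' a : J → ℕ} {T : Finset J}
  {x : Fin n → MvPowerSeries (Fin n) ℂ} {e : J → Fin n} {w : ρ → MvPowerSeries (Fin n) ℂ}

/-- the chart -/
theorem exists_loc (h : IsChart P g k a' a T x e w) :
    ∃ Λ : Loc P g (cex e T k) (cex e T a') (cex e T a), Λ.w = w := by
  obtain ⟨U, hU, hJ⟩ := h.jac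
  obtain ⟨V, hV, hP⟩ := h.ord
  rw [prod_cex] at hJ hP
  exact ⟨⟨x, U, V, w, hJ, hU, hP, hV, fun j => by rw [h.quot, prod_cex]⟩, rfl⟩

variable (h : IsChart P g k a' a T x e w) (m : ℕ) (hm : 3 ≤ m) (hN : ∀ i, 1 ≤ a' i + m * a i)
  (α : ℚ) (hα : 0 < α) (hT : ∀ i ∈ T, ((k i : ℚ) + 1) = α * (a' i + m * a i : ℕ))

include h hm hN hα hT in
theorem chart_strong (hw : Immersion w Set.univ) :
    ∃ Γ : MvPolynomial (Ex ρ m) ℂ, Γ ≠ 0 ∧ ∀ H : MvPolynomial ρ ℂ, H.IsHomogeneous m →
      eval (fun ν => H.coeff ν.1) Γ ≠ 0 → ∀ b : Polynomial ℂ,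
        IsBFunction (P * aeval g H) b →
          (Polynomial.X - Polynomial.C (-(α : ℂ))) ^ exm n T.card α ∣ b := by
  classical
  obtain ⟨Λ, rfl⟩ := exists_loc h
  obtain ⟨L, hL⟩ := exists_dual _ hw
  rw [← Finset.card_image_of_injOn h.inj]
  refine gen_strong Λ m hm (fun t => L (t.map fun s => ⟨s, Set.mem_univ s⟩)) (fun t => ?_)
    (fun t s => ?_) (T.image e) α (rat_of h.inj k a' a m hN α hα hT)
  · have h1 := hL (t.map fun s => ⟨s, Set.mem_univ s⟩) none
    rw [h1]
    cases t with
    | none => rfl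
    | some t => rfl
  · have h1 := hL (some ⟨t, Set.mem_univ t⟩) (some ⟨s, Set.mem_univ s⟩)
    refine h1.trans ?_
    by_cases hst : s = t
    · rw [if_pos hst, if_pos (by rw [Option.some.injEq]; exact Subtype.ext hst)]
    · rw [if_neg hst, if_neg fun h2 => hst (congrArg Subtype.val (Option.some_injective _ h2))]

include h hm hN hα hT in
theorem chart_weak (i : J) (hTi : T = {i}) (hw : Immersion w {t | t ≠ e i}) (hn : 2 ≤ n) :
    ∃ Γ : MvPolynomial (Ex ρ m) ℂ, Γ ≠ 0 ∧ ∀ H : MvPolynomial ρ ℂ, H.IsHomogeneous m →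
      eval (fun ν => H.coeff ν.1) Γ ≠ 0 → ∀ b : Polynomial ℂ,
        IsBFunction (P * aeval g H) b →
          (Polynomial.X - Polynomial.C (-(α : ℂ))) ^ 1 ∣ b := by
  classical
  obtain ⟨Λ, rfl⟩ := exists_loc h
  obtain ⟨L, hL⟩ := exists_dual _ hw
  have hR := rat_of h.inj k a' a m hN α hα hT
  have him : T.image e = {e i} := by rw [hTi, Finset.image_singleton]
  rw [him] at hR
  refine gen_weak Λ m hm (fun t => match t with
    | none => L none
    | some t => if ht : t ≠ e i then L (some ⟨t, ht⟩) else 0) (e i) (fun t ht => ?_)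
    (fun t s ht hs => ?_) α hR ?_
  · cases t with
    | none => exact hL none none
    | some t =>
      have ht' : t ≠ e i := fun h => ht (congrArg some h)
      have h1 := hL (some ⟨t, ht'⟩) none
      simp only [dif_pos ht']
      exact h1
  · have h1 := hL (some ⟨t, ht⟩) (some ⟨s, hs⟩)
    simp only [dif_pos ht]
    refine h1.trans ?_
    by_cases hst : s = t
    · rw [if_pos hst, if_pos (by rw [Option.some.injEq]; exact Subtype.ext hst)]
    · rw [if_neg hst, if_neg fun h2 => hst (congrArg Subtype.val (Option.some_injective _ h2))]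
  · intro h1
    have h2 := congrArg Finset.card h1
    rw [Finset.card_singleton, Finset.card_univ, Fintype.card_fin] at h2
    omega

end Conv

end Pool.Agent.H63.VI
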