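import Pool.Agent.H63.VI.Chart

set_option autoImplicit false
set_option linter.unusedSectionVars false

/-! # The blow-up of the origin -/

namespace Pool.Agent.H63.VI

open MvPolynomial Pool.Agent.H628R4.TP

theorem chain_rule {σ τ : Type} [Fintype σ]
    (D : Derivation ℂ (MvPowerSeries τ ℂ) (MvPowerSeries τ ℂ)) (y : σ → MvPowerSeries τ ℂ)
    (Q : MvPolynomial σ ℂ) : D (aeval y Q) = ∑ i, aeval y (pderiv i Q) * D (y i) := by
  classical
  induction Q using MvPolynomial.induction_on with
  | C c =>
    rw [aeval_C, D.map_algebraMap]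
    symm
    refine Finset.sum_eq_zero fun i _ => ?_
    rw [pderiv_C, map_zero, zero_mul]
  | add p q hp hq =>
    rw [map_add, map_add, hp, hq, ← Finset.sum_add_distrib]
    refine Finset.sum_congr rfl fun i _ => ?_
    rw [map_add, map_add, add_mul]
  | mul_X p j hp =>
    rw [map_mul, aeval_X, D.leibniz, smul_eq_mul, smul_eq_mul, hp]
    have h1 : ∀ i, aeval y (pderiv i (p * X j)) * D (y i) =
        (if i = j then aeval y p * D (y j) else 0) + y j * (aeval y (pderiv i p) * D (y i)) := by
      intro i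
      rw [Derivation.leibniz, smul_eq_mul, smul_eq_mul, pderiv_X, map_add, map_mul, map_mul,
        aeval_X]
      by_cases h : i = j
      · subst h
        rw [if_pos rfl, Pi.single_eq_same, map_one]
        ring
      · rw [if_neg h, Pi.single_eq_of_ne (Ne.symm h), map_zero]
        ring
    rw [Finset.sum_congr rfl fun i _ => h1 i, Finset.sum_add_distrib, Finset.sum_ite_eq',
      if_pos (Finset.mem_univ _), ← Finset.mul_sum]

variable {n : ℕ}

/-- the matrix of an elementary shape -/
theorem det_shape {R : Type} [CommRing R] (o : Fin n) (M : Matrix (Fin n) (Fin n) R)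
    (hM : ∀ t i, t ≠ o → i ≠ t → M t i = 0) : M.det = ∏ t, M t t := by
  classical
  rw [Matrix.det_apply, Finset.sum_eq_single 1]
  · simp
  · intro σ _ hσ
    have h1 : ∃ i, σ i ≠ o ∧ σ i ≠ i := by
      by_contra hcon
      push Not at hcon
      apply hσ
      ext1 i
      rw [Equiv.Perm.one_apply]
      by_cases h : σ i = o
      · by_contra hne
        have h2 : σ (σ i) ≠ σ i := fun h3 => hne (σ.injective h3)
        rw [h] at h2
        have h3 := hcon (σ i) (by rw [h]; exact h2)
        rw [h] at h3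
        exact h2 h3
      · exact hcon i h
    obtain ⟨i, hi, hi'⟩ := h1
    have hz : ∏ i, M (σ i) i = 0 :=
      Finset.prod_eq_zero (Finset.mem_univ i) (hM _ _ hi (Ne.symm hi'))
    exact (congrArg (fun x => Equiv.Perm.sign σ • x) hz).trans (smul_zero _)
  · intro h; exact absurd (Finset.mem_univ _) h

/-- the scaling -/
theorem wscale {S : Type} [CommRing S] [Algebra ℂ S] (w : Fin n → ℕ) (d : ℕ)
    (P : MvPolynomial (Fin n) ℂ) (hP : P.IsWeightedHomogeneous w d) (r : S) (y : Fin n → S) :
    aeval (fun i => r ^ w i * y i) P = r ^ d * aeval y P := by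
  rw [aeval_def, eval₂_eq', aeval_def, eval₂_eq', Finset.mul_sum]
  refine Finset.sum_congr rfl fun ν hν => ?_
  have h1 := hP (mem_support_iff.1 hν)
  have h2 : ∑ i, w i * ν i = d := by
    rw [← h1, Finsupp.weight_apply, Finsupp.sum_fintype _ _ (fun i => by simp)]
    refine Finset.sum_congr rfl fun i _ => ?_
    rw [smul_eq_mul, mul_comm]
  have h3 : ∏ i, (r ^ w i * y i) ^ ν i = r ^ d * ∏ i, y i ^ ν i := by
    rw [← h2, ← Finset.prod_pow_eq_pow_sum, ← Finset.prod_mul_distrib]
    refine Finset.prod_congr rfl fun i _ => ?_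
    rw [mul_pow, pow_mul]
  rw [h3]
  ring

section Cone

variable (w : Fin n → ℕ) (c : Fin n → ℂ) (o : Fin n)

/-- the coordinates of the exceptional divisor -/
noncomputable def yc (i : Fin n) : MvPowerSeries (Fin n) ℂ :=
  MvPowerSeries.C (c i) + if i = o then 0 else MvPowerSeries.X i

/-- the blow-up -/
noncomputable def xc (i : Fin n) : MvPowerSeries (Fin n) ℂ :=
  MvPowerSeries.X o ^ w i * yc c o i

theorem const_yc (i : Fin n) : MvPowerSeries.constantCoeff (yc c o i) = c i := by
  rw [yc, map_add, MvPowerSeries.constantCoeff_C]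
  split_ifs
  · rw [map_zero, add_zero]
  · rw [MvPowerSeries.constantCoeff_X, add_zero]

theorem const_aeval {σ τ : Type} (y : σ → MvPowerSeries τ ℂ) (Q : MvPolynomial σ ℂ) :
    MvPowerSeries.constantCoeff (aeval y Q) =
      eval (fun i => MvPowerSeries.constantCoeff (y i)) Q := by
  induction Q using MvPolynomial.induction_on with
  | C a =>
    rw [aeval_C, eval_C, MvPowerSeries.algebraMap_apply, MvPowerSeries.constantCoeff_C]
    rfl
  | add p q hp hq => rw [map_add, map_add, map_add, hp, hq]
  | mul_X p j hp => rw [map_mul, map_mul, map_mul, hp, aeval_X, eval_X]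

theorem pderiv_yc (t i : Fin n) : MvPowerSeries.pderiv ℂ t (yc c o i) =
    if i = t ∧ i ≠ o then 1 else 0 := by
  rw [yc, map_add, MvPowerSeries.pderiv_C, zero_add]
  by_cases h : i = o
  · rw [if_pos h, map_zero, if_neg (fun h' => h'.2 h)]
  · rw [if_neg h]
    by_cases h' : i = t
    · rw [if_pos ⟨h', h⟩, h', MvPowerSeries.pderiv_X_self]
    · rw [if_neg (fun h'' => h' h''.1), MvPowerSeries.pderiv_X_of_ne h']

theorem det_xc (hw : w o ≠ 0) : (Matrix.of fun t i => MvPowerSeries.pderiv ℂ t (xc w c o i)).det =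
    MvPowerSeries.X o ^ (∑ i, w i - 1) * MvPowerSeries.C ((w o : ℂ) * c o) := by
  classical
  have h0 : ∀ t i, MvPowerSeries.pderiv ℂ t (xc w c o i) =
      MvPowerSeries.X o ^ w i * (if i = t ∧ i ≠ o then 1 else 0) +
      yc c o i * ((w i : MvPowerSeries (Fin n) ℂ) * MvPowerSeries.X o ^ (w i - 1) *
        (if o = t then 1 else 0)) := by
    intro t i
    rw [xc, Derivation.leibniz, smul_eq_mul, smul_eq_mul, pderiv_yc, Derivation.leibniz_pow,
      nsmul_eq_mul, smul_eq_mul]
    by_cases h : o = t
    · rw [if_pos h, ← h, MvPowerSeries.pderiv_X_self]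
      ring
    · rw [if_neg h, MvPowerSeries.pderiv_X_of_ne h]
      ring
  rw [det_shape o _ (fun t i ht hi => by
    rw [Matrix.of_apply, h0, if_neg (fun h => hi h.1), if_neg (Ne.symm ht)]
    ring)]
  rw [← Finset.mul_prod_erase _ _ (Finset.mem_univ o),
    ← Finset.add_sum_erase _ w (Finset.mem_univ o)]
  have h1 : ∀ t ∈ Finset.univ.erase o, (Matrix.of fun t i =>
      MvPowerSeries.pderiv ℂ t (xc w c o i)) t t = MvPowerSeries.X o ^ w t := by
    intro t ht
    have hto := Finset.ne_of_mem_erase ht
    rw [Matrix.of_apply, h0, if_pos ⟨rfl, hto⟩, if_neg (Ne.symm hto)]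
    ring
  rw [Finset.prod_congr rfl h1, Finset.prod_pow_eq_pow_sum, Matrix.of_apply, h0,
    if_neg (fun h => h.2 rfl), if_pos rfl, yc, if_pos rfl]
  have h2 : w o + ∑ x ∈ Finset.univ.erase o, w x - 1 =
      (w o - 1) + ∑ x ∈ Finset.univ.erase o, w x := by omega
  rw [h2, pow_add, map_mul]
  simp only [map_natCast]
  ring

variable {ρ : Type} [Fintype ρ] [DecidableEq ρ] (P : MvPolynomial (Fin n) ℂ) (d : ℕ)
  (hP : P.IsWeightedHomogeneous w d) (g : ρ → MvPolynomial (Fin n) ℂ) (e : ℕ) (he : e ≠ 0)
  (hg : ∀ j, (g j).IsWeightedHomogeneous w e)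

theorem coeff_single_eq {τ : Type} (t : τ) (f : MvPowerSeries τ ℂ) :
    MvPowerSeries.coeff (Finsupp.single t 1) f =
      MvPowerSeries.constantCoeff (MvPowerSeries.pderiv ℂ t f) := by
  rw [← MvPowerSeries.coeff_zero_eq_constantCoeff_apply, MvPowerSeries.coeff_pderiv]
  simp

theorem coeff_yc (t : Fin n) (ht : t ≠ o) (Q : MvPolynomial (Fin n) ℂ) :
    MvPowerSeries.coeff (Finsupp.single t 1) (aeval (yc c o) Q) = eval c (pderiv t Q) := by
  rw [coeff_single_eq, chain_rule, map_sum, Finset.sum_eq_single t]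
  · rw [map_mul, pderiv_yc, if_pos ⟨rfl, ht⟩, map_one, mul_one, const_aeval]
    congr 2
    funext i
    exact const_yc c o i
  · intro i _ hi
    rw [map_mul, pderiv_yc, if_neg (fun h => hi h.1), map_zero, mul_zero]
  · intro h; exact absurd (Finset.mem_univ _) h

include hP hg in
theorem cone_chart (hw : w o ≠ 0) (hco : c o ≠ 0) (hPc : eval c P ≠ 0) :
    IsChart P g (fun _ : Unit => ∑ i, w i - 1) (fun _ => d) (fun _ => e) Finset.univ
      (xc w c o) (fun _ => o) (fun j => aeval (yc c o) (g j)) where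
  inj := fun _ _ _ _ _ => rfl
  jac := by
    refine ⟨MvPowerSeries.C ((w o : ℂ) * c o), ?_, ?_⟩
    · rw [MvPowerSeries.constantCoeff_C]
      exact mul_ne_zero (Nat.cast_ne_zero.2 hw) hco
    · rw [det_xc w c o hw]
      simp
  ord := by
    refine ⟨aeval (yc c o) P, ?_, ?_⟩
    · rw [const_aeval]
      simp only [const_yc]
      exact hPc
    · have h : aeval (xc w c o) P = MvPowerSeries.X o ^ d * aeval (yc c o) P :=
        wscale w d P hP (MvPowerSeries.X o) (yc c o)
      rw [h]
      simp
  quot := by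
    intro j
    have h : aeval (xc w c o) (g j) = MvPowerSeries.X o ^ e * aeval (yc c o) (g j) :=
      wscale w e (g j) (hg j) (MvPowerSeries.X o) (yc c o)
    rw [h]
    simp

include he hg in
theorem cone_imm (hw : w o ≠ 0) (hco : c o ≠ 0)
    (hu : LinearIndependent ℂ fun i : Fin n => fun j => eval c (pderiv i (g j))) :
    Immersion (fun j => aeval (yc c o) (g j)) {t | t ≠ o} := by
  classical
  have hE : ∀ j, ∑ i, (w i : ℂ) * c i * eval c (pderiv i (g j)) = e * eval c (g j) := by
    intro j
    have h1 := congrArg (eval c) (hg j).sum_weight_X_mul_pderiv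
    rw [map_sum, map_nsmul, nsmul_eq_mul] at h1
    rw [← h1]
    refine Finset.sum_congr rfl fun i _ => ?_
    rw [map_nsmul, nsmul_eq_mul, map_mul, eval_X]
    ring
  have he' : (e : ℂ) ≠ 0 := Nat.cast_ne_zero.2 he
  unfold Immersion
  rw [Fintype.linearIndependent_iff] at hu ⊢
  intro l hl
  have h0 : ∀ j, l none * eval c (g j) + ∑ t : {t | t ≠ o}, l (some t) *
      eval c (pderiv t.1 (g j)) = 0 := by
    intro j
    have h1 := congrFun hl j
    rw [Fintype.sum_option, Pi.add_apply, Pi.smul_apply, Finset.sum_apply] at h1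
    simp only [Pi.smul_apply, smul_eq_mul, Pi.zero_apply] at h1
    rw [const_aeval] at h1
    simp only [const_yc] at h1
    rw [← h1]
    congr 1
    refine Finset.sum_congr rfl fun t _ => ?_
    rw [coeff_yc c o t.1 t.2]
  have h1 := hu (fun i => l none / e * (w i * c i) + if h : i ≠ o then l (some ⟨i, h⟩) else 0) (by
    funext j
    rw [Finset.sum_apply]
    simp only [Pi.smul_apply, smul_eq_mul, Pi.zero_apply, add_mul, Finset.sum_add_distrib]
    refine Eq.trans ?_ (h0 j)
    congr 1
    · have h2 : ∑ i, l none / e * (w i * c i) * eval c (pderiv i (g j)) =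
          l none / e * ∑ i, (w i : ℂ) * c i * eval c (pderiv i (g j)) := by
        rw [Finset.mul_sum]
        exact Finset.sum_congr rfl fun i _ => by ring
      rw [h2, hE]
      field_simp
    · rw [← Finset.add_sum_erase _ _ (Finset.mem_univ o), dif_neg (fun h => h rfl), zero_mul,
        zero_add, Finset.sum_subtype (Finset.univ.erase o) (p := fun t => t ∈ {t | t ≠ o})
        (fun x => by simp)]
      refine Finset.sum_congr rfl fun t _ => ?_
      have ht : t.1 ≠ o := t.2
      rw [dif_pos ht])
  have h2 : l none = 0 := by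
    have h3 := h1 o
    rw [dif_neg (fun h => h rfl), add_zero] at h3
    have hwo : (w o : ℂ) * c o ≠ 0 := mul_ne_zero (Nat.cast_ne_zero.2 hw) hco
    rcases mul_eq_zero.1 h3 with h4 | h4
    · rcases div_eq_zero_iff.1 h4 with h5 | h5
      · exact h5
      · exact absurd h5 he'
    · exact absurd h4 hwo
  intro t
  cases t with
  | none => exact h2
  | some t =>
    have h3 := h1 t.1
    have ht : t.1 ≠ o := t.2
    rw [h2, zero_div, zero_mul, zero_add, dif_pos ht] at h3
    exact h3

end Cone

end Pool.Agent.H63.VI
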