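import Pool.Agent.H63.VI.Final
import Pool.Agent.H63.VI.Cone

set_option autoImplicit false
set_option linter.unusedSectionVars false

/-! # Weighted homogeneous polynomials -/

namespace Pool.Agent.H63.VI

open MvPolynomial Pool.Agent.H628R4.TP

theorem cone_main {n : ℕ} (hn : 2 ≤ n) {ρ : Type} [Fintype ρ] (P : MvPolynomial (Fin n) ℂ)
    (g : ρ → MvPolynomial (Fin n) ℂ) (m : ℕ) (hm : 3 ≤ m) (u : Fin n → ℕ) (d e : ℕ) (he : e ≠ 0)
    (hP0 : P ≠ 0) (hP : P.IsWeightedHomogeneous u d) (hg : ∀ j, (g j).IsWeightedHomogeneous u e)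
    (hdet : ∃ c : Fin n → ρ, (Matrix.of fun i t => pderiv i (g (c t))).det ≠ 0) :
    ∃ Γ : MvPolynomial {ν : ρ →₀ ℕ // ν.degree = m} ℂ, Γ ≠ 0 ∧
      ∀ G : MvPolynomial ρ ℂ, G.IsHomogeneous m → eval (fun ν => G.coeff ν.1) Γ ≠ 0 →
      ∀ b : Polynomial ℂ, IsBFunction (P * aeval g G) b →
        b.eval (-((∑ i, u i : ℕ) : ℂ) / (d + m * e : ℕ)) = 0 := by
  classical
  obtain ⟨c, hc⟩ := hdet
  -- the weights are not all zero
  obtain ⟨o, ho⟩ : ∃ o, u o ≠ 0 := by
    by_contra hcon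
    push Not at hcon
    apply hc
    have h1 : ∀ j, g j = 0 := by
      intro j
      by_contra hj
      obtain ⟨ν, hν⟩ := ne_zero_iff.1 hj
      have h2 := hg j hν
      rw [Finsupp.weight_apply, Finsupp.sum_fintype _ _ (fun i => by simp)] at h2
      rw [Finset.sum_eq_zero (fun i _ => by rw [hcon i, smul_zero])] at h2
      exact he h2.symm
    have h3 : (Matrix.of fun i t => pderiv i (g (c t)) : Matrix (Fin n) (Fin n) _) = 0 := by
      ext1 i t
      rw [Matrix.of_apply, h1, map_zero, Matrix.zero_apply]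
    rw [h3]
    have : Nonempty (Fin n) := ⟨⟨0, by omega⟩⟩
    exact Matrix.det_zero
  -- a general point
  obtain ⟨y, hy⟩ : ∃ y : Fin n → ℂ, eval y (P * (Matrix.of fun i t =>
      pderiv i (g (c t))).det * X o) ≠ 0 := by
    by_contra hcon
    push Not at hcon
    refine mul_ne_zero (mul_ne_zero hP0 hc) (X_ne_zero o) (MvPolynomial.funext fun y => ?_)
    rw [hcon y, map_zero]
  rw [map_mul, map_mul, eval_X] at hy
  have hyo : y o ≠ 0 := right_ne_zero_of_mul hy
  have hyP : eval y P ≠ 0 := left_ne_zero_of_mul (left_ne_zero_of_mul hy)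
  have hyd := right_ne_zero_of_mul (left_ne_zero_of_mul hy)
  have hu : LinearIndependent ℂ fun i : Fin n => fun j => eval y (pderiv i (g j)) := by
    rw [RingHom.map_det] at hyd
    have h1 := Matrix.linearIndependent_rows_of_det_ne_zero hyd
    rw [Fintype.linearIndependent_iff] at h1 ⊢
    intro l hl
    refine h1 l ?_
    funext t
    have h2 := congrFun hl (c t)
    rw [Finset.sum_apply] at h2 ⊢
    simpa [Matrix.row] using h2
  have hsum : 1 ≤ ∑ i, u i :=
    (Nat.one_le_iff_ne_zero.2 ho).trans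
      (Finset.single_le_sum (f := u) (fun _ _ => Nat.zero_le _) (Finset.mem_univ o))
  have hN : ∀ _ : Unit, 1 ≤ d + m * e := fun _ => by
    have : 1 ≤ m * e := Nat.one_le_iff_ne_zero.2 (mul_ne_zero (by omega) he)
    omega
  obtain ⟨Γ, hΓ, hΓ'⟩ := exists_gamma P g m hm (fun _ : Unit => ∑ i, u i - 1) (fun _ => d)
    (fun _ => e) hN hn Finset.univ
  refine ⟨Γ, hΓ, fun G hG hne b hb => ?_⟩
  have hN0 : ((d + m * e : ℕ) : ℚ) ≠ 0 := by
    have := hN ()
    exact Nat.cast_ne_zero.2 (by omega)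
  have h1 := (hΓ' G hG hne b hb ((∑ i, u i : ℕ) / (d + m * e : ℕ)) ⟨(), Finset.mem_univ _⟩
    (fun _ _ => by
      rw [div_mul_cancel₀ _ hN0, Nat.cast_sub hsum]
      push_cast
      ring)).2 ⟨xc u y o, fun _ => o, fun j => aeval (yc y o) (g j), (),
        cone_chart u y o P d hP g e hg ho hyo hyP, rfl,
        cone_imm u y o g e he hg ho hyo hu⟩
  rw [pow_one, Polynomial.dvd_iff_isRoot, Polynomial.IsRoot] at h1
  rw [← h1]
  congr 1
  push_cast
  ring

end Pool.Agent.H63.VI
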