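import Pool.Agent.H63.VG.Sub
import Pool.Agent.H63.VH.Sub

set_option autoImplicit false
set_option linter.unusedSectionVars false

/-! # The filtration of the power series by weights -/

namespace Pool.Agent.H63.VI

open MvPowerSeries

variable {σ : Type} [Fintype σ] [DecidableEq σ] (e : σ → ℕ)

theorem wt_add (μ ν : σ →₀ ℕ) : VG.wt e (μ + ν) = VG.wt e μ + VG.wt e ν := by
  simp only [VG.wt, Finsupp.add_apply, mul_add, Finset.sum_add_distrib]

theorem wt_single (t : σ) (n : ℕ) : VG.wt e (Finsupp.single t n) = e t * n := by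
  rw [VG.wt, Finset.sum_eq_single t]
  · rw [Finsupp.single_eq_same]
  · intro s _ hs
    rw [Finsupp.single_eq_of_ne hs, mul_zero]
  · intro h; exact absurd (Finset.mem_univ _) h

/-- the power series of weight at least `N` -/
def Wt (N : ℕ) (h : MvPowerSeries σ ℂ) : Prop := ∀ μ, coeff μ h ≠ 0 → N ≤ VG.wt e μ

variable {e} {N M : ℕ} {h h' : MvPowerSeries σ ℂ}

theorem Wt.mono (H : Wt e N h) (hMN : M ≤ N) : Wt e M h := fun μ hμ => hMN.trans (H μ hμ)

theorem Wt.zero : Wt e 0 h := fun _ _ => Nat.zero_le _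

theorem Wt.add (H : Wt e N h) (H' : Wt e N h') : Wt e N (h + h') := by
  intro μ hμ
  by_contra hlt
  apply hμ
  rw [map_add]
  have h1 : coeff μ h = 0 := by
    by_contra h1
    exact hlt (H μ h1)
  have h2 : coeff μ h' = 0 := by
    by_contra h1
    exact hlt (H' μ h1)
  rw [h1, h2, add_zero]

theorem Wt.neg (H : Wt e N h) : Wt e N (-h) := by
  intro μ hμ
  refine H μ fun h1 => hμ ?_
  rw [map_neg, h1, neg_zero]

theorem Wt.sub (H : Wt e N h) (H' : Wt e N h') : Wt e N (h - h') := by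
  rw [sub_eq_add_neg]
  exact H.add H'.neg

theorem Wt.sum {κ : Type} (s : Finset κ) (f : κ → MvPowerSeries σ ℂ)
    (H : ∀ i ∈ s, Wt e N (f i)) : Wt e N (∑ i ∈ s, f i) := by
  intro μ hμ
  rw [map_sum] at hμ
  obtain ⟨i, hi, hi'⟩ := Finset.exists_ne_zero_of_sum_ne_zero hμ
  exact H i hi μ hi'

theorem Wt.mul (H : Wt e N h) (H' : Wt e M h') : Wt e (N + M) (h * h') := by
  classical
  intro μ hμ
  rw [coeff_mul] at hμ
  obtain ⟨x, hx, hx'⟩ := Finset.exists_ne_zero_of_sum_ne_zero hμ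
  rw [Finset.HasAntidiagonal.mem_antidiagonal] at hx
  rw [← hx, wt_add]
  exact add_le_add (H _ (left_ne_zero_of_mul hx')) (H' _ (right_ne_zero_of_mul hx'))

theorem Wt.pow (H : Wt e N h) (k : ℕ) : Wt e (N * k) (h ^ k) := by
  induction k with
  | zero => rw [mul_zero]; exact Wt.zero
  | succ k ih => rw [pow_succ, Nat.mul_succ]; exact ih.mul H

theorem Wt.X (t : σ) : Wt e (e t) (X t : MvPowerSeries σ ℂ) := by
  intro μ hμ
  rw [coeff_X] at hμ
  split_ifs at hμ with h1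
  · rw [h1, wt_single, mul_one]
  · exact absurd rfl hμ

/-- the weights are at least two -/
theorem two_le_wt (he : ∀ t, 2 ≤ e t) (μ : σ →₀ ℕ) : 2 * μ.degree ≤ VG.wt e μ := by
  rw [VG.wt, Finsupp.degree_eq_sum, Finset.mul_sum]
  exact Finset.sum_le_sum fun t _ => Nat.mul_le_mul_right _ (he t)

theorem Wt.of_const (he : ∀ t, 2 ≤ e t) (h0 : constantCoeff h = 0) : Wt e 1 h := by
  intro μ hμ
  by_cases h1 : μ = 0
  · rw [h1, coeff_zero_eq_constantCoeff_apply] at hμ
    exact absurd h0 hμ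
  · have h2 : μ.degree ≠ 0 := fun h => h1 ((Finsupp.degree_eq_zero_iff μ).1 h)
    have := two_le_wt he μ
    omega

/-- power series without terms of weight less than four -/
theorem Wt.four (he : ∀ t, 2 ≤ e t) (h0 : constantCoeff h = 0)
    (h1 : ∀ s, e s < 4 → coeff (Finsupp.single s 1) h = 0) : Wt e 4 h := by
  intro μ hμ
  by_contra hlt
  rw [not_le] at hlt
  have h2 := two_le_wt he μ
  have h3 : μ.degree = 0 ∨ μ.degree = 1 := by omega
  rcases h3 with h3 | h3
  · rw [Finsupp.degree_eq_zero_iff] at h3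
    rw [h3, coeff_zero_eq_constantCoeff_apply] at hμ
    exact hμ h0
  · obtain ⟨s, rfl⟩ : μ ∈ Set.range (fun a : σ => Finsupp.single a 1) := by
      rw [Finsupp.range_single_one]
      exact h3
    simp only at hlt hμ
    rw [wt_single, mul_one] at hlt
    exact hμ (h1 s hlt)

/-- The series `V ∑ u_t ^ δ_t u_0 ^ (m - δ_t)`. -/
theorem tangent (he : ∀ t, 2 ≤ e t) (R : Finset σ) (δ : σ → ℕ) (hδ : ∀ t ∈ R, δ t = 2 ∨ δ t = 3)
    (heδ : ∀ t ∈ R, e t * δ t = 6) (u : σ → MvPowerSeries σ ℂ) (u0 V : MvPowerSeries σ ℂ) (m : ℕ)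
    (hu : ∀ t ∈ R, Wt e 4 (u t - X t)) (hu0 : constantCoeff u0 = 1) :
    (∀ t ∈ R, coeff (Finsupp.single t (δ t)) (V * ∑ t ∈ R, u t ^ δ t * u0 ^ (m - δ t)) =
      constantCoeff V) ∧
    ∀ μ, coeff μ (V * ∑ t ∈ R, u t ^ δ t * u0 ^ (m - δ t)) ≠ 0 →
      6 < VG.wt e μ ∨ ∃ t ∈ R, μ = Finsupp.single t (δ t) := by
  have h1 : ∀ t ∈ R, Wt e 7 (u t ^ δ t - X t ^ δ t) := by
    intro t ht
    have h2 := heδ t ht
    have h3 : Wt e (e t) (u t) := by
      have h4 : e t ≤ 4 := by rcases hδ t ht with h | h <;> rw [h] at h2 <;> omega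
      have := ((hu t ht).mono h4).add (Wt.X t)
      rwa [sub_add_cancel] at this
    rcases hδ t ht with h | h
    · rw [h] at h2 ⊢
      have h4 : u t ^ 2 - X t ^ 2 = (u t - X t) * (u t + X t) := by ring
      rw [h4]
      exact ((hu t ht).mul (h3.add (Wt.X t))).mono (by omega)
    · rw [h] at h2 ⊢
      have h4 : u t ^ 3 - X t ^ 3 = (u t - X t) * (u t * u t + u t * X t + X t * X t) := by ring
      rw [h4]
      exact ((hu t ht).mul (((h3.mul h3).add (h3.mul (Wt.X t))).add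
        ((Wt.X t).mul (Wt.X t)))).mono (by omega)
  have h2 : ∀ k : ℕ, Wt e 1 (u0 ^ k - 1) := by
    intro k
    refine Wt.of_const he ?_
    rw [map_sub, map_pow, hu0, one_pow, map_one, sub_self]
  have hX6 : ∀ t ∈ R, Wt e 6 ((X t : MvPowerSeries σ ℂ) ^ δ t) := by
    intro t ht
    rw [← heδ t ht]
    exact (Wt.X t).pow _
  have hV : Wt e 1 (V - C (constantCoeff V)) := by
    refine Wt.of_const he ?_
    rw [map_sub, constantCoeff_C, sub_self]
  have h3 : ∀ t ∈ R, Wt e 7 (u t ^ δ t * u0 ^ (m - δ t) - X t ^ δ t) := by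
    intro t ht
    have h4 : u t ^ δ t * u0 ^ (m - δ t) - X t ^ δ t =
        (u t ^ δ t - X t ^ δ t) * u0 ^ (m - δ t) + X t ^ δ t * (u0 ^ (m - δ t) - 1) := by ring
    rw [h4]
    exact (((h1 t ht).mul Wt.zero).mono (by omega)).add (((hX6 t ht).mul (h2 _)).mono (by omega))
  have h4 : Wt e 7 (V * (∑ t ∈ R, u t ^ δ t * u0 ^ (m - δ t)) -
      C (constantCoeff V) * ∑ t ∈ R, X t ^ δ t) := by
    have h5 : V * (∑ t ∈ R, u t ^ δ t * u0 ^ (m - δ t)) -
      C (constantCoeff V) * ∑ t ∈ R, X t ^ δ t =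
      V * (∑ t ∈ R, (u t ^ δ t * u0 ^ (m - δ t) - X t ^ δ t)) +
        (V - C (constantCoeff V)) * ∑ t ∈ R, X t ^ δ t := by
      rw [Finset.sum_sub_distrib]
      ring
    rw [h5]
    exact (((Wt.zero (h := V)).mul (Wt.sum _ _ h3)).mono (by omega)).add
      ((hV.mul (Wt.sum _ _ hX6)).mono (by omega))
  have h6 : ∀ μ, coeff μ (C (constantCoeff V) * ∑ t ∈ R, (X t : MvPowerSeries σ ℂ) ^ δ t) =
      ∑ t ∈ R, if μ = Finsupp.single t (δ t) then constantCoeff V else 0 := by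
    intro μ
    rw [coeff_C_mul, map_sum, Finset.mul_sum]
    refine Finset.sum_congr rfl fun t _ => ?_
    rw [coeff_X_pow, mul_ite, mul_one, mul_zero]
  constructor
  · intro t ht
    have h7 : coeff (Finsupp.single t (δ t)) (V * (∑ t ∈ R, u t ^ δ t * u0 ^ (m - δ t)) -
      C (constantCoeff V) * ∑ t ∈ R, X t ^ δ t) = 0 := by
      by_contra h7
      have h8 := h4 _ h7
      rw [wt_single, heδ t ht] at h8
      omega
    rw [map_sub, sub_eq_zero] at h7
    rw [h7, h6, Finset.sum_eq_single t]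
    · rw [if_pos rfl]
    · intro s hs hst
      rw [if_neg]
      intro h
      have := (Finsupp.single_eq_single_iff _ _ _ _).1 h
      rcases this with h9 | h9
      · exact hst h9.1.symm
      · rcases hδ t ht with h' | h' <;> omega
    · intro h; exact absurd ht h
  · intro μ hμ
    by_contra hcon
    rw [not_or, not_lt] at hcon
    have h7 : coeff μ (V * (∑ t ∈ R, u t ^ δ t * u0 ^ (m - δ t)) -
      C (constantCoeff V) * ∑ t ∈ R, X t ^ δ t) = 0 := by
      by_contra h7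
      have h8 := h4 _ h7
      omega
    rw [map_sub, sub_eq_zero] at h7
    rw [h7, h6] at hμ
    obtain ⟨t, ht, ht'⟩ := Finset.exists_ne_zero_of_sum_ne_zero hμ
    refine hcon.2 ⟨t, ht, ?_⟩
    by_contra h9
    rw [if_neg h9] at ht'
    exact ht' rfl

/-- the choice of the exponents -/
theorem exists_delta (T : Finset σ) (hT : T ≠ Finset.univ) (α : ℚ) :
    ∃ δ : σ → ℕ, (∀ t, δ t = 2 ∨ δ t = 3) ∧
      ∀ n : ℕ, 1 ≤ n → α - ∑ t ∈ Finset.univ \ T, (1 : ℚ) / δ t ≠ n := by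
  obtain ⟨t0, ht0⟩ : ∃ t0, t0 ∉ T := by
    by_contra h
    push Not at h
    exact hT (Finset.eq_univ_iff_forall.2 h)
  by_cases h1 : ∀ n : ℕ, 1 ≤ n → α - ∑ t ∈ Finset.univ \ T, (1 : ℚ) / ((2 : ℕ) : ℚ) ≠ n
  · exact ⟨fun _ => 2, fun _ => Or.inl rfl, h1⟩
  · push Not at h1
    obtain ⟨n, -, hn⟩ := h1
    refine ⟨Function.update (fun _ => 2) t0 3, fun t => ?_, fun n' _ hn' => ?_⟩
    · by_cases h : t = t0
      · right; rw [h, Function.update_self]
      · left; rw [Function.update_of_ne h]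
    · have hm : t0 ∈ Finset.univ \ T := by simp [ht0]
      rw [← Finset.sum_erase_add _ _ hm] at hn hn'
      rw [Function.update_self] at hn'
      rw [Finset.sum_congr rfl (g := fun _ => (1 : ℚ) / ((2 : ℕ) : ℚ)) (fun t ht => by
        rw [Function.update_of_ne (Finset.ne_of_mem_erase ht)])] at hn'
      have h2 : (6 : ℚ) * (n' : ℚ) = 6 * n + 1 := by
        push_cast at hn hn'
        linarith
      have h3 : 6 * n' = 6 * n + 1 := by exact_mod_cast h2
      omega

end Pool.Agent.H63.VI
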