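import Pool.Agent.H63.VI.Filt
import Pool.Agent.H63.VH.Red

set_option autoImplicit false
set_option linter.unusedSectionVars false

/-! # The linear systems of the forms of degree `m` -/

namespace Pool.Agent.H63.VI

open MvPolynomial Pool.Agent.H63.VG

section Forms

variable {ρ : Type} [Fintype ρ] [DecidableEq ρ]

/-- the exponents of degree `m` -/
abbrev Ex (ρ : Type) (m : ℕ) : Type := {ν : ρ →₀ ℕ // ν.degree = m}

noncomputable instance (m : ℕ) : Fintype (Ex ρ m) := (Finsupp.finite_of_degree_eq m).fintype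

theorem form_expand {S : Type} [CommRing S] [Algebra ℂ S] (m : ℕ) (H : MvPolynomial ρ ℂ)
    (hH : H.IsHomogeneous m) (g : ρ → S) :
    aeval g H = ∑ ν : Ex ρ m, algebraMap ℂ S (H.coeff ν.1) * ∏ j, g j ^ ν.1 j := by
  rw [aeval_def, eval₂_eq',
    ← Finset.sum_subtype (Finsupp.finite_of_degree_eq m).toFinset (fun x => by simp)
      (fun ν => algebraMap ℂ S (H.coeff ν) * ∏ j, g j ^ ν j)]
  refine Finset.sum_subset (fun d hd => ?_) fun d _ hd => ?_
  · rw [Set.Finite.mem_toFinset]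
    exact (Finsupp.degree_eq_weight_one (R := ℕ) ▸ hH (mem_support_iff.1 hd) : _)
  · rw [notMem_support_iff.1 hd, map_zero, zero_mul]

theorem form_scale {S : Type} [CommRing S] [Algebra ℂ S] (m : ℕ) (H : MvPolynomial ρ ℂ)
    (hH : H.IsHomogeneous m) (r : S) (w : ρ → S) :
    aeval (fun j => r * w j) H = r ^ m * aeval w H := by
  rw [form_expand m H hH, form_expand m H hH, Finset.mul_sum]
  refine Finset.sum_congr rfl fun ν _ => ?_
  have h1 : ∑ j, ν.1 j = m := by
    rw [← Finsupp.degree_eq_sum]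
    exact ν.2
  simp only [mul_pow]
  rw [Finset.prod_mul_distrib, Finset.prod_pow_eq_pow_sum, h1]
  ring

variable {σ : Type}

/-- the linear system -/
noncomputable def sys {F : Subfield ℂ} (p : MvPolynomial σ F) (g : ρ → MvPolynomial σ F) (m : ℕ)
    (ν : Ex ρ m) : MvPolynomial σ F := p * ∏ j, g j ^ ν.1 j

theorem member_form {F : Subfield ℂ} (p : MvPolynomial σ F) (g : ρ → MvPolynomial σ F) (m : ℕ)
    (H : MvPolynomial ρ ℂ) (hH : H.IsHomogeneous m) :
    member (sys p g m) (fun ν => H.coeff ν.1) =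
      map (algebraMap F ℂ) p * aeval (fun j => map (algebraMap F ℂ) (g j)) H := by
  rw [form_expand m H hH, member, Finset.mul_sum]
  refine Finset.sum_congr rfl fun ν _ => ?_
  rw [sys, map_mul, map_prod]
  simp only [map_pow]
  rw [algebraMap_eq]
  ring

/-- a linear form -/
noncomputable def lin (l : ρ → ℂ) : MvPolynomial ρ ℂ := ∑ j, C (l j) * X j

theorem lin_homog (l : ρ → ℂ) : (lin l).IsHomogeneous 1 := by
  refine IsHomogeneous.sum _ _ _ fun j _ => ?_
  exact isHomogeneous_C_mul_X _ _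

/-- the tangent form -/
noncomputable def tform (R : Finset σ) (δ : σ → ℕ) (m : ℕ) (L : Option σ → ρ → ℂ) :
    MvPolynomial ρ ℂ := ∑ t ∈ R, lin (L (some t)) ^ δ t * lin (L none) ^ (m - δ t)

theorem tform_homog (R : Finset σ) (δ : σ → ℕ) (m : ℕ) (L : Option σ → ρ → ℂ)
    (hδ : ∀ t ∈ R, δ t ≤ m) : (tform R δ m L).IsHomogeneous m := by
  refine IsHomogeneous.sum _ _ _ fun t ht => ?_
  have := ((lin_homog (L (some t))).pow (δ t)).mul ((lin_homog (L none)).pow (m - δ t))
  rw [one_mul, one_mul, Nat.add_sub_cancel' (hδ t ht)] at this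
  exact this

theorem aeval_tform {S : Type} [CommRing S] [Algebra ℂ S] (w : ρ → S) (R : Finset σ) (δ : σ → ℕ)
    (m : ℕ) (L : Option σ → ρ → ℂ) :
    aeval w (tform R δ m L) = ∑ t ∈ R, (∑ j, algebraMap ℂ S (L (some t) j) * w j) ^ δ t *
      (∑ j, algebraMap ℂ S (L none j) * w j) ^ (m - δ t) := by
  simp only [tform, lin, map_sum, map_mul, map_pow, aeval_C, aeval_X]

end Forms

section Tangent

variable {ρ σ : Type} [Fintype ρ] [DecidableEq ρ] [Fintype σ] [DecidableEq σ]

open MvPowerSeries in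
/-- The tangent member, in the chart. -/
theorem tangent_data (e : σ → ℕ) (he : ∀ t, 2 ≤ e t) (R : Finset σ) (δ : σ → ℕ)
    (hδ : ∀ t ∈ R, δ t = 2 ∨ δ t = 3)
    (heδ : ∀ t ∈ R, e t * δ t = 6) (he' : ∀ t, t ∉ R → 4 ≤ e t) (m : ℕ)
    (L : Option σ → ρ → ℂ) (w : ρ → MvPowerSeries σ ℂ) (V : MvPowerSeries σ ℂ)
    (hL0 : ∀ t ∈ R, ∑ j, L (some t) j * constantCoeff (w j) = 0)
    (hL0' : ∑ j, L none j * constantCoeff (w j) = 1)
    (hL1 : ∀ t ∈ R, ∀ s ∈ R, ∑ j, L (some t) j * coeff (Finsupp.single s 1) (w j) =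
      if s = t then 1 else 0) :
    (∀ t ∈ R, coeff (Finsupp.single t (δ t)) (V * MvPolynomial.aeval w (tform R δ m L)) =
      constantCoeff V) ∧
    (∀ μ, coeff μ (V * MvPolynomial.aeval w (tform R δ m L)) ≠ 0 →
      6 < VG.wt e μ ∨ ∃ t ∈ R, μ = Finsupp.single t (δ t)) ∧
    constantCoeff (V * MvPolynomial.aeval w (tform R δ m L)) = 0 := by
  rw [aeval_tform]
  have hc : ∀ (l : ρ → ℂ) μ, coeff μ (∑ j, algebraMap ℂ (MvPowerSeries σ ℂ) (l j) * w j) =
      ∑ j, l j * coeff μ (w j) := by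
    intro l μ
    rw [map_sum]
    refine Finset.sum_congr rfl fun j _ => ?_
    rw [MvPowerSeries.algebraMap_apply, Algebra.algebraMap_self, RingHom.id_apply,
      MvPowerSeries.coeff_C_mul]
  have h0 : ∀ (l : ρ → ℂ), constantCoeff (∑ j, algebraMap ℂ (MvPowerSeries σ ℂ) (l j) * w j) =
      ∑ j, l j * constantCoeff (w j) := by
    intro l
    have := hc l 0
    simpa only [coeff_zero_eq_constantCoeff_apply] using this
  have h1 := tangent he R δ hδ heδ
    (fun t => ∑ j, algebraMap ℂ (MvPowerSeries σ ℂ) (L (some t) j) * w j)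
    (∑ j, algebraMap ℂ (MvPowerSeries σ ℂ) (L none j) * w j) V m (fun t ht => ?_) ?_
  · refine ⟨h1.1, h1.2, ?_⟩
    rw [map_mul, map_sum, Finset.sum_eq_zero, mul_zero]
    intro t ht
    rw [map_mul, map_pow, h0, hL0 t ht, zero_pow, zero_mul]
    rcases hδ t ht with h | h <;> omega
  · refine Wt.four he ?_ fun s hs => ?_
    · rw [map_sub, h0, hL0 t ht, MvPowerSeries.constantCoeff_X, sub_zero]
    · have hsR : s ∈ R := by
        by_contra h
        have := he' s h
        omega
      rw [map_sub, hc, hL1 t ht s hsR, MvPowerSeries.coeff_X]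
      by_cases h : s = t
      · rw [if_pos h, if_pos (by rw [h]), sub_self]
      · rw [if_neg h, if_neg, sub_self]
        intro h2
        rcases (Finsupp.single_eq_single_iff _ _ _ _).1 h2 with h3 | h3
        · exact h h3.1
        · exact absurd h3.1 one_ne_zero
  · rw [h0, hL0']

end Tangent

end Pool.Agent.H63.VI
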