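import Pool.Agent.H63.VI.Theta
import Pool.Agent.H63.VI.Defs

set_option autoImplicit false
set_option linter.unusedSectionVars false

/-! # The roots which come from a chart, for general members: results -/

namespace Pool.Agent.H63.VI

open MvPolynomial Pool.Agent.H63.VG Pool.Agent.H628R4.TP

variable {ρ : Type} [Fintype ρ] [DecidableEq ρ] {N : ℕ}
variable {P : MvPolynomial (Fin N) ℂ} {g : ρ → MvPolynomial (Fin N) ℂ} {κ a' a : Fin N → ℕ}
  (Λ : Loc P g κ a' a) (m : ℕ) (hm : 3 ≤ m)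

theorem trans_sum0 (θ : ℂ →+* ℂ) (l : ρ → ℂ) (c : ℂ)
    (h : ∑ j, l j * MvPowerSeries.constantCoeff (Λ.w j) = c) :
    ∑ j, θ (l j) * MvPowerSeries.constantCoeff ((Λ.trans θ).w j) = θ c := by
  rw [← h, map_sum]
  refine Finset.sum_congr rfl fun j _ => ?_
  rw [map_mul]
  congr 1

theorem trans_sum1 (θ : ℂ →+* ℂ) (l : ρ → ℂ) (c : ℂ) (s : Fin N)
    (h : ∑ j, l j * MvPowerSeries.coeff (Finsupp.single s 1) (Λ.w j) = c) :
    ∑ j, θ (l j) * MvPowerSeries.coeff (Finsupp.single s 1) ((Λ.trans θ).w j) = θ c := by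
  rw [← h, map_sum]
  refine Finset.sum_congr rfl fun j _ => ?_
  rw [map_mul]
  congr 1

include hm in
/-- **Immersions.** -/
theorem gen_strong (L : Option (Fin N) → ρ → ℂ)
    (hL0 : ∀ t, ∑ j, L t j * MvPowerSeries.constantCoeff (Λ.w j) = if t = none then 1 else 0)
    (hL1 : ∀ t s, ∑ j, L (some t) j * MvPowerSeries.coeff (Finsupp.single s 1) (Λ.w j) =
      if s = t then 1 else 0) (T : Finset (Fin N)) (α : ℚ)
    (hT : Rat κ (fun t => a' t + m * a t) T α) :
    ∃ Γ : MvPolynomial (Ex ρ m) ℂ, Γ ≠ 0 ∧ ∀ H : MvPolynomial ρ ℂ, H.IsHomogeneous m →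
      eval (fun ν => H.coeff ν.1) Γ ≠ 0 → ∀ b : Polynomial ℂ,
        IsBFunction (P * aeval g H) b →
          (Polynomial.X - Polynomial.C (-(α : ℂ))) ^ exm N T.card α ∣ b := by
  refine gen_core Λ m (Λ.v_ne m (L none) (by rw [hL0, if_pos rfl])) α _ ?_
  intro θ H hH hind b hb
  have h0 : ∀ t, ∑ j, θ (L t j) * MvPowerSeries.constantCoeff ((Λ.trans θ).w j) =
      if t = none then 1 else 0 := by
    intro t
    rw [trans_sum0 Λ θ (L t) _ (hL0 t)]
    split_ifs
    · exact map_one θ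
    · exact map_zero θ
  have h1 : ∀ t s, ∑ j, θ (L (some t) j) *
      MvPowerSeries.coeff (Finsupp.single s 1) ((Λ.trans θ).w j) = if s = t then 1 else 0 := by
    intro t s
    rw [trans_sum1 Λ θ (L (some t)) _ s (hL1 t s)]
    split_ifs
    · exact map_one θ
    · exact map_zero θ
  have hcard : T.card = N ↔ T = Finset.univ := by
    rw [← Finset.card_eq_iff_eq_univ, Fintype.card_fin]
  unfold exm
  by_cases hTu : T = Finset.univ
  · rw [if_pos (hcard.2 hTu)]
    by_cases hq : ∃ q : ℕ, 2 ≤ q ∧ α = q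
    · rw [if_pos hq]
      obtain ⟨q, hq2, hq⟩ := hq
      exact point_D (Λ.trans θ) m hm H hH hind b hb (fun t j => θ (L t j)) h0 h1 hT q (by omega)
        hq hTu
    · rw [if_neg hq]
      by_cases h1α : α = 1
      · exact point_C (Λ.trans θ) m hm H hH hind b hb (fun t j => θ (L t j)) h0 h1 hT h1α hTu
      · refine point_A (Λ.trans θ) m hm H hH hind b hb (fun t j => θ (L t j)) h0 h1 hT
          fun _ n hn hα => ?_
        by_cases hn1 : n = 1
        · exact h1α (by rw [hα, hn1, Nat.cast_one])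
        · exact hq ⟨n, by omega, hα⟩
  · rw [if_neg (fun h => hTu (hcard.1 h))]
    by_cases h1α : α = 1
    · rw [if_pos h1α]
      exact point_B (Λ.trans θ) m hm H hH hind b hb (fun t j => θ (L t j)) h0 h1 hT h1α hTu
    · rw [if_neg h1α]
      exact point_A (Λ.trans θ) m hm H hH hind b hb (fun t j => θ (L t j)) h0 h1 hT
        fun h => absurd h hTu

include hm in
/-- **Immersions along the divisor.** -/
theorem gen_weak (L : Option (Fin N) → ρ → ℂ) (o : Fin N)
    (hL0 : ∀ t, t ≠ some o →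
      ∑ j, L t j * MvPowerSeries.constantCoeff (Λ.w j) = if t = none then 1 else 0)
    (hL1 : ∀ t s, t ≠ o → s ≠ o → ∑ j, L (some t) j *
      MvPowerSeries.coeff (Finsupp.single s 1) (Λ.w j) = if s = t then 1 else 0) (α : ℚ)
    (hT : Rat κ (fun t => a' t + m * a t) {o} α) (hTu : ({o} : Finset (Fin N)) ≠ Finset.univ) :
    ∃ Γ : MvPolynomial (Ex ρ m) ℂ, Γ ≠ 0 ∧ ∀ H : MvPolynomial ρ ℂ, H.IsHomogeneous m →
      eval (fun ν => H.coeff ν.1) Γ ≠ 0 → ∀ b : Polynomial ℂ,
        IsBFunction (P * aeval g H) b → (Polynomial.X - Polynomial.C (-(α : ℂ))) ^ 1 ∣ b := by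
  refine gen_core Λ m (Λ.v_ne m (L none) (by
    rw [hL0 _ (Option.some_ne_none o).symm, if_pos rfl])) α _ ?_
  intro θ H hH hind b hb
  have h0 : ∀ t, t ≠ some o → ∑ j, θ (L t j) * MvPowerSeries.constantCoeff ((Λ.trans θ).w j) =
      if t = none then 1 else 0 := by
    intro t ht
    rw [trans_sum0 Λ θ (L t) _ (hL0 t ht)]
    split_ifs
    · exact map_one θ
    · exact map_zero θ
  have h1 : ∀ t s, t ≠ o → s ≠ o → ∑ j, θ (L (some t) j) *
      MvPowerSeries.coeff (Finsupp.single s 1) ((Λ.trans θ).w j) = if s = t then 1 else 0 := by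
    intro t s ht hs
    rw [trans_sum1 Λ θ (L (some t)) _ s (hL1 t s ht hs)]
    split_ifs
    · exact map_one θ
    · exact map_zero θ
  rw [pow_one, Polynomial.dvd_iff_isRoot]
  exact point_W (Λ.trans θ) m hm H hH hind b hb (fun t j => θ (L t j)) o h0 h1 α hT hTu

end Pool.Agent.H63.VI
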