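import Pool.Agent.H63.VI.Chart
import Pool.Agent.W574.HS.Minus

set_option autoImplicit false
set_option linter.unusedSectionVars false

/-! # The poles of the zeta function -/

namespace Pool.Agent.H63.VI

open Pool.Agent.H628R4.TP Polynomial

section Reg

/-- `Z` has a pole of order at most `M` at `z` -/
def PoleLE (z : ℂ) (M : ℕ) (Z : RatFunc ℂ) : Prop :=
  ∃ Q R : ℂ[X], Q.eval z ≠ 0 ∧
    algebraMap ℂ[X] (RatFunc ℂ) ((X - C z) ^ M * Q) * Z = algebraMap ℂ[X] (RatFunc ℂ) R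

variable {z : ℂ} {M M' : ℕ} {Z Z' : RatFunc ℂ}

theorem PoleLE.zero : PoleLE z 0 0 := ⟨1, 0, by simp, by simp⟩

theorem PoleLE.one : PoleLE z 0 1 := ⟨1, 1, by simp, by simp⟩

theorem PoleLE.int (c : ℤ) : PoleLE z 0 (c : RatFunc ℂ) :=
  ⟨1, C (c : ℂ), by simp, by simp⟩

theorem PoleLE.mono (h : PoleLE z M Z) (hM : M ≤ M') : PoleLE z M' Z := by
  obtain ⟨Q, R, hQ, hR⟩ := h
  obtain ⟨k, rfl⟩ := Nat.exists_eq_add_of_le hM
  refine ⟨Q, (X - C z) ^ k * R, hQ, ?_⟩
  have h1 : (X - C z) ^ (M + k) * Q = (X - C z) ^ k * ((X - C z) ^ M * Q) := by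
    rw [pow_add]; ring
  rw [h1, map_mul, mul_assoc, hR, ← map_mul]

theorem PoleLE.mul (h : PoleLE z M Z) (h' : PoleLE z M' Z') : PoleLE z (M + M') (Z * Z') := by
  obtain ⟨Q, R, hQ, hR⟩ := h
  obtain ⟨Q', R', hQ', hR'⟩ := h'
  refine ⟨Q * Q', R * R', by rw [eval_mul]; exact mul_ne_zero hQ hQ', ?_⟩
  have h1 : (X - C z) ^ (M + M') * (Q * Q') =
      ((X - C z) ^ M * Q) * ((X - C z) ^ M' * Q') := by
    rw [pow_add]; ring
  rw [h1, map_mul, map_mul (algebraMap ℂ[X] (RatFunc ℂ)) R, ← hR, ← hR']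
  ring

theorem PoleLE.add (h : PoleLE z M Z) (h' : PoleLE z M Z') : PoleLE z M (Z + Z') := by
  obtain ⟨Q, R, hQ, hR⟩ := h
  obtain ⟨Q', R', hQ', hR'⟩ := h'
  refine ⟨Q * Q', Q' * R + Q * R', by rw [eval_mul]; exact mul_ne_zero hQ hQ', ?_⟩
  have h1 : algebraMap ℂ[X] (RatFunc ℂ) ((X - C z) ^ M * (Q * Q')) * (Z + Z') =
      algebraMap ℂ[X] (RatFunc ℂ) Q' * (algebraMap ℂ[X] (RatFunc ℂ) ((X - C z) ^ M * Q) * Z) +
      algebraMap ℂ[X] (RatFunc ℂ) Q *
        (algebraMap ℂ[X] (RatFunc ℂ) ((X - C z) ^ M * Q') * Z') := by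
    simp only [map_mul]
    ring
  rw [h1, hR, hR', map_add, map_mul, map_mul]

theorem PoleLE.sum {ι : Type} (s : Finset ι) (f : ι → RatFunc ℂ)
    (h : ∀ i ∈ s, PoleLE z M (f i)) : PoleLE z M (∑ i ∈ s, f i) := by
  classical
  induction s using Finset.induction_on with
  | empty => rw [Finset.sum_empty]; exact PoleLE.zero.mono (Nat.zero_le _)
  | insert i s hi ih =>
    rw [Finset.sum_insert hi]
    exact (h i (Finset.mem_insert_self _ _)).add
      (ih fun j hj => h j (Finset.mem_insert_of_mem hj))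

theorem PoleLE.prod {ι : Type} (s : Finset ι) (f : ι → RatFunc ℂ) (c : ι → ℕ)
    (h : ∀ i ∈ s, PoleLE z (c i) (f i)) : PoleLE z (∑ i ∈ s, c i) (∏ i ∈ s, f i) := by
  classical
  induction s using Finset.induction_on with
  | empty => rw [Finset.sum_empty, Finset.prod_empty]; exact PoleLE.one
  | insert i s hi ih =>
    rw [Finset.sum_insert hi, Finset.prod_insert hi]
    exact (h i (Finset.mem_insert_self _ _)).mul
      (ih fun j hj => h j (Finset.mem_insert_of_mem hj))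

/-- the inverse of a linear polynomial -/
theorem PoleLE.lin (N ν : ℕ) (hN : 1 ≤ N) (z : ℂ) :
    open Classical in
    PoleLE z (if (N : ℂ) * z + ν = 0 then 1 else 0)
      (((N : RatFunc ℂ) * RatFunc.X + (ν : RatFunc ℂ))⁻¹) := by
  classical
  have e : (N : RatFunc ℂ) * RatFunc.X + (ν : RatFunc ℂ) = algebraMap ℂ[X] (RatFunc ℂ)
      (C (N : ℂ) * X + C (ν : ℂ)) := by
    simp
  have hN0 : (N : ℂ) ≠ 0 := Nat.cast_ne_zero.2 (by omega)
  have h0 : (C (N : ℂ) * X + C (ν : ℂ)) ≠ 0 := by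
    intro h
    have := congrArg (fun p => p.coeff 1) h
    simp at this
    exact hN0 (by exact_mod_cast this)
  have h0' : algebraMap ℂ[X] (RatFunc ℂ) (C (N : ℂ) * X + C (ν : ℂ)) ≠ 0 :=
    RatFunc.algebraMap_ne_zero h0
  rw [e]
  by_cases h : (N : ℂ) * z + ν = 0
  · rw [if_pos h]
    refine ⟨C (N : ℂ), 1, by simpa using hN0, ?_⟩
    have h1 : (X - C z) ^ 1 * C (N : ℂ) = C (N : ℂ) * X + C (ν : ℂ) := by
      have h2 : (ν : ℂ) = -((N : ℂ) * z) := by linear_combination h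
      rw [h2, C_neg, C_mul]
      ring
    rw [h1, mul_inv_cancel₀ h0', map_one]
  · rw [if_neg h]
    refine ⟨C (N : ℂ) * X + C (ν : ℂ), 1, by simpa using h, ?_⟩
    rw [pow_zero, one_mul, mul_inv_cancel₀ h0', map_one]

theorem PoleLE.order (h : PoleLE z M Z) : Z.denom.rootMultiplicity z ≤ M := by
  obtain ⟨Q, R, hQ, hR⟩ := h
  have hQ0 : Q ≠ 0 := fun h => hQ (by rw [h, eval_zero])
  have hne : (X - C z) ^ M * Q ≠ 0 := mul_ne_zero (pow_ne_zero _ (X_sub_C_ne_zero z)) hQ0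
  have h1 : Z.denom ∣ (X - C z) ^ M * Q := by
    have hd : algebraMap ℂ[X] (RatFunc ℂ) ((X - C z) ^ M * Q) ≠ 0 :=
      RatFunc.algebraMap_ne_zero hne
    have h2 : Z = algebraMap ℂ[X] (RatFunc ℂ) R /
        algebraMap ℂ[X] (RatFunc ℂ) ((X - C z) ^ M * Q) := by
      rw [eq_div_iff hd, mul_comm]
      exact hR
    rw [h2]
    exact RatFunc.denom_div_dvd _ _
  refine (rootMultiplicity_le_rootMultiplicity_of_dvd hne h1 z).trans ?_
  rw [rootMultiplicity_mul hne, rootMultiplicity_X_sub_C_pow, rootMultiplicity_eq_zero hQ,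
    add_zero]

end Reg

section Zeta

variable {J : Type} [Fintype J] (N k : J → ℕ) (hN : ∀ i, 1 ≤ N i) (χ χ' : Finset J → ℤ)

open Classical in
/-- the order of the pole of a term -/
noncomputable def ordS (z : ℂ) (S : Finset J) : ℕ :=
  (if z = -1 ∧ χ' S ≠ 0 then 1 else 0) +
    (S.filter fun i => (N i : ℂ) * z + (k i + 1 : ℕ) = 0).card

include hN in
theorem zeta_pole (z : ℂ) (M : ℕ)
    (hM : ∀ S, (χ S ≠ 0 ∨ χ' S ≠ 0) → ordS N k χ' z S ≤ M) :
    PoleLE z M (zeta N (fun i => k i + 1) χ χ') := by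
  classical
  unfold zeta
  refine PoleLE.sum _ _ fun S _ => ?_
  by_cases hS : χ S ≠ 0 ∨ χ' S ≠ 0
  · refine PoleLE.mono ?_ (hM S hS)
    unfold ordS
    refine PoleLE.mul ?_ ?_
    · by_cases h' : χ' S = 0
      · rw [h', Int.cast_zero, zero_mul, add_zero]
        exact (PoleLE.int _).mono (Nat.zero_le _)
      · have h1 := PoleLE.lin 1 1 (le_refl _) z
        have e1 : ((1 : ℕ) : RatFunc ℂ) * RatFunc.X + ((1 : ℕ) : RatFunc ℂ) = RatFunc.X + 1 := by
          simp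
        have e2 : (((1 : ℕ) : ℂ) * z + ((1 : ℕ) : ℂ) = 0) ↔ (z = -1 ∧ χ' S ≠ 0) := by
          rw [Nat.cast_one, one_mul]
          constructor
          · intro h
            exact ⟨by linear_combination h, h'⟩
          · rintro ⟨h, -⟩
            rw [h]; ring
        rw [e1] at h1
        have h2 : PoleLE z (if z = -1 ∧ χ' S ≠ 0 then 1 else 0) ((RatFunc.X + 1)⁻¹) := by
          convert h1 using 2
          exact e2.symm
        refine ((PoleLE.int _).mono (Nat.zero_le _)).add ?_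
        have h3 := (PoleLE.int (z := z) (χ' S)).mul h2
        rwa [zero_add] at h3
    · rw [Finset.card_filter]
      refine PoleLE.prod _ _ _ fun i _ => ?_
      exact PoleLE.lin (N i) (k i + 1) (hN i) z
  · push Not at hS
    rw [hS.1, hS.2, Int.cast_zero, zero_mul, add_zero, zero_mul]
    exact PoleLE.zero.mono (Nat.zero_le _)

end Zeta

end Pool.Agent.H63.VI
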