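import Pool.Agent.H63.VI.Forms
import Pool.Agent.H63.VH.Main4
import Pool.Agent.H63.VH.KK
import Pool.Agent.H63.VG.Main2

set_option autoImplicit false
set_option linter.unusedSectionVars false

/-! # The roots which come from a chart -/

namespace Pool.Agent.H63.VI

open MvPolynomial Pool.Agent.H63.VG Pool.Agent.H628R4.TP

variable {ρ σ : Type} [Fintype ρ] [DecidableEq ρ] [Fintype σ] [DecidableEq σ]

/-- A chart in which `P` is a monomial times a unit and the `g j` are multiples of a monomial. -/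
structure Loc (P : MvPolynomial σ ℂ) (g : ρ → MvPolynomial σ ℂ) (κ a' a : σ → ℕ) where
  x : σ → MvPowerSeries σ ℂ
  U : MvPowerSeries σ ℂ
  V : MvPowerSeries σ ℂ
  w : ρ → MvPowerSeries σ ℂ
  jac : (Matrix.of fun t i => MvPowerSeries.pderiv ℂ t (x i)).det =
    (∏ t, MvPowerSeries.X t ^ κ t) * U
  hU : MvPowerSeries.constantCoeff U ≠ 0
  hP : aeval x P = (∏ t, MvPowerSeries.X t ^ a' t) * V
  hV : MvPowerSeries.constantCoeff V ≠ 0
  hg : ∀ j, aeval x (g j) = (∏ t, MvPowerSeries.X t ^ a t) * w j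

variable {P : MvPolynomial σ ℂ} {g : ρ → MvPolynomial σ ℂ} {κ a' a : σ → ℕ} (Λ : Loc P g κ a' a)

theorem Loc.form (m : ℕ) (H : MvPolynomial ρ ℂ) (hH : H.IsHomogeneous m) :
    aeval Λ.x (P * aeval g H) =
      (∏ t, MvPowerSeries.X t ^ (a' t + m * a t)) * (Λ.V * aeval Λ.w H) := by
  have h1 : aeval Λ.x (aeval g H) = aeval (fun j => (∏ t, MvPowerSeries.X t ^ a t) * Λ.w j) H := by
    rw [← AlgHom.comp_apply, comp_aeval]
    congr 2
    funext j
    exact Λ.hg j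
  rw [map_mul, Λ.hP, h1, form_scale m H hH]
  have h2 : (∏ t, (MvPowerSeries.X t : MvPowerSeries σ ℂ) ^ (a' t + m * a t)) =
      (∏ t, MvPowerSeries.X t ^ a' t) * (∏ t, MvPowerSeries.X t ^ a t) ^ m := by
    rw [← Finset.prod_pow, ← Finset.prod_mul_distrib]
    refine Finset.prod_congr rfl fun t _ => ?_
    rw [pow_add, mul_comm m, pow_mul]
  rw [h2]
  ring

/-- the values at the origin of the chart -/
noncomputable def Loc.v (m : ℕ) (ν : Ex ρ m) : ℂ := MvPowerSeries.constantCoeff Λ.V *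
  ∏ j, MvPowerSeries.constantCoeff (Λ.w j) ^ ν.1 j

theorem Loc.const (m : ℕ) (H : MvPolynomial ρ ℂ) (hH : H.IsHomogeneous m) :
    MvPowerSeries.constantCoeff (Λ.V * aeval Λ.w H) = ∑ ν : Ex ρ m, H.coeff ν.1 * Λ.v m ν := by
  rw [form_expand m H hH, map_mul, map_sum, Finset.mul_sum]
  refine Finset.sum_congr rfl fun ν _ => ?_
  rw [map_mul, map_prod, Loc.v]
  simp only [map_pow]
  rw [MvPowerSeries.algebraMap_apply, MvPowerSeries.constantCoeff_C, Algebra.algebraMap_self,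
    RingHom.id_apply]
  ring

/-- the form with given coefficients -/
noncomputable def frm {m : ℕ} (c : Ex ρ m → ℂ) : MvPolynomial ρ ℂ := ∑ ν, monomial ν.1 (c ν)

theorem frm_homog {m : ℕ} (c : Ex ρ m → ℂ) : (frm c).IsHomogeneous m :=
  IsHomogeneous.sum _ _ _ fun ν _ => isHomogeneous_monomial _ ν.2

theorem coeff_frm {m : ℕ} (c : Ex ρ m → ℂ) (ν : Ex ρ m) : (frm c).coeff ν.1 = c ν := by
  rw [frm, coeff_sum, Finset.sum_eq_single ν]
  · rw [coeff_monomial, if_pos rfl]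
  · intro μ _ hμ
    rw [coeff_monomial, if_neg fun h => hμ (Subtype.ext h)]
  · intro h; exact absurd (Finset.mem_univ _) h

theorem Loc.v_ne (m : ℕ) (L : ρ → ℂ) (hL : ∑ j, L j * MvPowerSeries.constantCoeff (Λ.w j) = 1) :
    ∃ ν, Λ.v m ν ≠ 0 := by
  obtain ⟨j, -, hj⟩ := Finset.exists_ne_zero_of_sum_ne_zero (hL ▸ one_ne_zero)
  refine ⟨⟨Finsupp.single j m, Finsupp.degree_single _ _⟩, ?_⟩
  rw [Loc.v]
  refine mul_ne_zero Λ.hV (Finset.prod_ne_zero_iff.2 fun i _ => ?_)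
  by_cases h : i = j
  · rw [h]
    exact pow_ne_zero _ (right_ne_zero_of_mul hj)
  · change _ ^ (Finsupp.single j m) i ≠ 0
    rw [Finsupp.single_eq_of_ne h, pow_zero]
    exact one_ne_zero

section Point

variable {F : Subfield ℂ} {p : MvPolynomial σ F} {q : ρ → MvPolynomial σ F}
  (Λ : Loc (map (algebraMap F ℂ) p) (fun j => map (algebraMap F ℂ) (q j)) κ a' a)
  (m : ℕ) (hm : 3 ≤ m) (H : MvPolynomial ρ ℂ) (hH : H.IsHomogeneous m)
  (hind : AlgebraicIndependent F (fun ν : Ex ρ m => H.coeff ν.1)) (b : Polynomial ℂ)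
  (hb : IsBFunction (map (algebraMap F ℂ) p * aeval (fun j => map (algebraMap F ℂ) (q j)) H) b)
  (L : Option σ → ρ → ℂ)
  (hL0 : ∀ t, ∑ j, L t j * MvPowerSeries.constantCoeff (Λ.w j) = if t = none then 1 else 0)
  (hL1 : ∀ t s, ∑ j, L (some t) j * MvPowerSeries.coeff (Finsupp.single s 1) (Λ.w j) =
    if s = t then 1 else 0)

theorem sys_ne (Λ : Loc (map (algebraMap F ℂ) p) (fun j => map (algebraMap F ℂ) (q j)) κ a' a)
    (m : ℕ) (hv : ∃ ν, Λ.v m ν ≠ 0) : ∃ ν, sys p q m ν ≠ 0 := by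
  obtain ⟨ν, hν⟩ := hv
  refine ⟨ν, fun h0 => hν ?_⟩
  classical
  have h1 := member_form p q m (frm (Pi.single ν 1)) (frm_homog _)
  have h2 : member (sys p q m) (fun μ => (frm (Pi.single ν 1 : Ex ρ m → ℂ)).coeff μ.1) = 0 := by
    rw [member]
    refine Finset.sum_eq_zero fun μ _ => ?_
    rw [coeff_frm]
    by_cases h : μ = ν
    · rw [h, h0, map_zero, mul_zero]
    · rw [Pi.single_eq_of_ne h, map_zero, zero_mul]
  rw [h2] at h1
  have h3 := Λ.form m (frm (Pi.single ν 1)) (frm_homog _)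
  rw [← h1, map_zero] at h3
  have h4 : (∏ t, (MvPowerSeries.X t : MvPowerSeries σ ℂ) ^ (a' t + m * a t)) ≠ 0 :=
    Finset.prod_ne_zero_iff.2 fun t _ => pow_ne_zero _ (by
      intro h
      have := congrArg (MvPowerSeries.coeff (Finsupp.single t 1)) h
      rw [MvPowerSeries.coeff_X, if_pos rfl, map_zero] at this
      exact one_ne_zero this)
  have h5 := (mul_eq_zero.1 h3.symm).resolve_left h4
  have h6 := Λ.const m (frm (Pi.single ν 1)) (frm_homog _)
  rw [h5, map_zero, Finset.sum_eq_single ν] at h6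
  · rw [coeff_frm, Pi.single_eq_same, one_mul] at h6
    exact h6.symm
  · intro μ _ hμ
    rw [coeff_frm, Pi.single_eq_of_ne hμ, zero_mul]
  · intro h; exact absurd (Finset.mem_univ _) h

include hm hH hind hb hL0 hL1 in
theorem point_core (z : F) (δ : σ → ℕ) (hδ : ∀ t, δ t = 2 ∨ δ t = 3) (M : ℕ) (hM : M ≠ 0)
    (c' mm : ℕ) (hmc : mm + c' ≤ M)
    (hcase : ∀ (f0 f1 : MvPolynomial σ ℂ) (h0 h1 : MvPowerSeries σ ℂ),
      aeval Λ.x f0 = (∏ t, MvPowerSeries.X t ^ (a' t + m * a t)) * h0 →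
      aeval Λ.x f1 = (∏ t, MvPowerSeries.X t ^ (a' t + m * a t)) * h1 →
      MvPowerSeries.constantCoeff h1 = 1 →
      (∀ t, MvPowerSeries.coeff (Finsupp.single t (δ t)) h0 =
        MvPowerSeries.constantCoeff Λ.V) →
      (∀ μ, MvPowerSeries.coeff μ h0 ≠ 0 →
        6 < VH.wt (fun t => 6 / δ t) μ ∨ ∃ t, μ = Finsupp.single t (δ t)) →
      ∀ (N : ℕ) (S : Finset (List (σ ⊕ σ))), (∀ w ∈ S, w.length ≤ N) →
      ∀ (r : List (σ ⊕ σ) → Polynomial (VH.KK M)) (Q : Polynomial (VH.KK M)),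
      C Q * VH.pen f0 f1 ^ N = ∑ w ∈ S, C (r w) * VH.pen f0 f1 ^ (N + 1 - w.length) *
        qq (VH.pen f0 f1) (Polynomial.C (algebraMap ℂ (VH.KK M) (z : ℂ) + VH.epsK M)) w →
      Polynomial.C ((VH.epsK M) ^ c') * Q = 0) :
    (Polynomial.X - Polynomial.C (z : ℂ)) ^ mm ∣ b := by
  have hδ6 : ∀ t, 6 / δ t * δ t = 6 := fun t => by
    rcases hδ t with h | h <;> rw [h]
  obtain ⟨hT1, hT2, hT3⟩ := tangent_data (fun t => 6 / δ t)
    (fun t => by rcases hδ t with h | h <;> rw [h] <;> norm_num) Finset.univ δ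
    (fun t _ => hδ t) (fun t _ => hδ6 t) (fun t ht => absurd (Finset.mem_univ t) ht) m L Λ.w Λ.V
    (fun t _ => by rw [hL0, if_neg (Option.some_ne_none t)])
    (by rw [hL0, if_pos rfl]) (fun t _ s _ => hL1 t s)
  have hGh : (tform Finset.univ δ m L).IsHomogeneous m :=
    tform_homog _ _ _ _ fun t _ => by rcases hδ t with h | h <;> omega
  have hv := Λ.v_ne m (L none) (by rw [hL0, if_pos rfl])
  refine VH.mult_main (sys p q m) (fun ν => H.coeff ν.1) hind (sys_ne Λ m hv) b ?_ z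
    (fun ν => (tform Finset.univ δ m L).coeff ν.1) (Λ.v m) hv ?_ (VH.epsK M) (VH.piK M hM)
    (VH.piK_algebraMap M hM) (VH.piK_eps M hM) mm c' (fun ν hν x hx => ?_) ?_
  · rw [member_form p q m H hH]
    exact hb
  · rw [← hT3, Λ.const m _ hGh]
  · exact VH.piK_zero M hM _ (by omega) x hx
  · intro e he N S hS r Q heq
    have hf0 := Λ.form m _ hGh
    rw [← member_form p q m _ hGh] at hf0
    have he' : member (sys p q m) e = map (algebraMap F ℂ) p *
        aeval (fun j => map (algebraMap F ℂ) (q j)) (frm e) := by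
      rw [← member_form p q m _ (frm_homog e)]
      congr 1
      funext ν
      rw [coeff_frm]
    have hf1 := Λ.form m _ (frm_homog e)
    rw [← he'] at hf1
    refine hcase _ _ _ _ hf0 hf1 ?_ (fun t => hT1 t (Finset.mem_univ t)) (fun μ hμ => ?_) N S hS r Q
      heq
    · rw [Λ.const m _ (frm_homog e), ← he]
      refine Finset.sum_congr rfl fun ν _ => ?_
      rw [coeff_frm]
    · rcases hT2 μ hμ with h | ⟨t, -, h⟩
      · exact Or.inl h
      · exact Or.inr ⟨t, h⟩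

/-- the divisors with the ratio `α` -/
structure Rat (κ A : σ → ℕ) (T : Finset σ) (α : ℚ) : Prop where
  pos : 0 < α
  mem : ∀ t ∈ T, A t ≠ 0 ∧ ((κ t : ℚ) + 1) = α * A t
  notMem : ∀ t, t ∉ T → κ t = 0 ∧ A t = 0

theorem Rat.zero {A : σ → ℕ} {T : Finset σ} {α : ℚ} (h : Rat κ A T α) (t : σ) (ht : t ∈ T) :
    ((κ t + 1 : ℕ) : ℂ) + A t * (-(α : ℂ)) = 0 := by
  have h1 := (h.mem t ht).2
  have h2 : ((κ t : ℂ) + 1) = α * A t := by exact_mod_cast h1
  push_cast
  rw [h2]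
  ring

theorem Rat.hA {A : σ → ℕ} {T : Finset σ} {α : ℚ} (h : Rat κ A T α) (δ : σ → ℕ)
    (hδ : ∀ t, δ t = 2 ∨ δ t = 3) (t : σ) (n : ℕ) (hn : 1 ≤ n) :
    ((κ t + 1 : ℕ) : ℂ) + A t * (-(α : ℂ)) ≠ δ t * n := by
  by_cases ht : t ∈ T
  · rw [h.zero t ht]
    refine (mul_ne_zero (Nat.cast_ne_zero.2 ?_) (Nat.cast_ne_zero.2 (by omega))).symm
    rcases hδ t with h | h <;> omega
  · obtain ⟨h1, h2⟩ := h.notMem t ht
    rw [h1, h2, Nat.cast_zero, zero_mul, add_zero]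
    intro h3
    have h4 : 0 + 1 = δ t * n := by exact_mod_cast h3
    rcases hδ t with h | h <;> rw [h] at h4 <;> omega

theorem Rat.hND {A : σ → ℕ} {T : Finset σ} {α : ℚ} (h : Rat κ A T α) (δ : σ → ℕ)
    (hn : ∀ n : ℕ, 1 ≤ n → α - ∑ t ∈ Finset.univ \ T, (1 : ℚ) / δ t ≠ n) (n : ℕ) (hn1 : 1 ≤ n) :
    -(-(α : ℂ)) - ∑ t, (((κ t + 1 : ℕ) : ℂ) + A t * (-(α : ℂ))) / δ t ≠ n := by
  have h1 : ∑ t, (((κ t + 1 : ℕ) : ℂ) + A t * (-(α : ℂ))) / δ t =
      ∑ t ∈ Finset.univ \ T, (1 : ℂ) / δ t := by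
    rw [← Finset.sum_sdiff (Finset.subset_univ T), Finset.sum_eq_zero (s := T) (fun t ht => by
      rw [h.zero t ht, zero_div]), add_zero]
    refine Finset.sum_congr rfl fun t ht => ?_
    obtain ⟨h1, h2⟩ := h.notMem t (Finset.mem_sdiff.1 ht).2
    rw [h1, h2]
    simp
  rw [h1, neg_neg]
  intro h2
  refine hn n hn1 ?_
  have : ((α - ∑ t ∈ Finset.univ \ T, (1 : ℚ) / δ t : ℚ) : ℂ) = ((n : ℚ) : ℂ) := by
    push_cast
    rw [← h2]
  exact_mod_cast this

variable {T : Finset σ} {α : ℚ} (hT : Rat κ (fun t => a' t + m * a t) T α)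

theorem coe_neg (F : Subfield ℂ) (α : ℚ) : (((-α : ℚ) : F) : ℂ) = -(α : ℂ) := by
  have h := map_ratCast F.subtype (-α)
  rw [Subfield.coe_subtype] at h
  rw [h]
  push_cast
  ring

include hm hH hind hb hL0 hL1 hT in
/-- **the order of the root, first case** -/
theorem point_A (hn : T = Finset.univ → ∀ n : ℕ, 1 ≤ n → α ≠ n) :
    (Polynomial.X - Polynomial.C (-(α : ℂ))) ^ T.card ∣ b := by
  rcases Nat.eq_zero_or_pos T.card with h0 | h0
  · rw [h0, pow_zero]; exact one_dvd _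
  obtain ⟨δ, hδ, hδn⟩ : ∃ δ : σ → ℕ, (∀ t, δ t = 2 ∨ δ t = 3) ∧
      ∀ n : ℕ, 1 ≤ n → α - ∑ t ∈ Finset.univ \ T, (1 : ℚ) / δ t ≠ n := by
    by_cases hTu : T = Finset.univ
    · refine ⟨fun _ => 2, fun _ => Or.inl rfl, fun n hn' => ?_⟩
      rw [hTu, Finset.sdiff_self, Finset.sum_empty, sub_zero]
      exact hn hTu n hn'
    · exact exists_delta T hTu α
  have key := point_core Λ m hm H hH hind b hb L hL0 hL1 ((-α : ℚ) : F) δ hδ T.card h0.ne' 0
    T.card (by omega) ?_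
  · rwa [coe_neg] at key
  intro f0 f1 h0' h1 hf0 hf1 hh1 hb' hh N S hS r Q heq
  rw [pow_zero, map_one, one_mul]
  rw [coe_neg] at heq
  refine VH.case_A (fun t => 6 / δ t) (fun t => by rcases hδ t with h | h <;> rw [h] <;> norm_num)
    6 (by norm_num) δ (fun t => by rcases hδ t with h | h <;> rw [h] <;> norm_num)
    (fun t => by rcases hδ t with h | h <;> simp only [h]) (fun _ =>
      MvPowerSeries.constantCoeff Λ.V) (fun _ => Λ.hV) Λ.x κ (fun t => a' t + m * a t) Λ.U Λ.hU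
    Λ.jac f0 f1 h0' h1 hf0 hf1 hh1 hb' hh (VH.epsK T.card)
    (fun r x hr => VH.epsK_unit T.card r x hr) (-(α : ℂ)) T (fun t ht => (hT.mem t ht).1)
    (fun t ht => hT.zero t ht) (fun t n hn => hT.hA δ hδ t n hn) (fun n => ?_)
    (fun n hn => hT.hND δ hδn n hn) (VH.epsK_pow _) N S hS r Q heq
  rw [neg_neg]
  have h2 := hT.pos
  have h3 : (α + n : ℚ) ≠ 0 := by positivity
  exact_mod_cast h3

include hm hH hind hb hL0 hL1 hT in
/-- **the order of the root, second case** -/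
theorem point_B (hα : α = 1) (hTu : T ≠ Finset.univ) :
    (Polynomial.X - Polynomial.C (-(α : ℂ))) ^ (T.card + 1) ∣ b := by
  obtain ⟨δ, hδ, hδn⟩ := exists_delta T hTu α
  have key := point_core Λ m hm H hH hind b hb L hL0 hL1 ((-α : ℚ) : F) δ hδ (T.card + 1)
    (by omega) 0 (T.card + 1) (by omega) ?_
  · rwa [coe_neg] at key
  intro f0 f1 h0' h1 hf0 hf1 hh1 hb' hh N S hS r Q heq
  rw [pow_zero, map_one, one_mul]
  rw [coe_neg] at heq
  exact VH.case_B (fun t => 6 / δ t) (fun t => by rcases hδ t with h | h <;> rw [h] <;> norm_num)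
    6 (by norm_num) δ (fun t => by rcases hδ t with h | h <;> rw [h] <;> norm_num)
    (fun t => by rcases hδ t with h | h <;> simp only [h]) (fun _ =>
      MvPowerSeries.constantCoeff Λ.V) (fun _ => Λ.hV) Λ.x κ (fun t => a' t + m * a t) Λ.U Λ.hU
    Λ.jac f0 f1 h0' h1 hf0 hf1 hh1 hb' hh (VH.epsK (T.card + 1))
    (fun r x hr => VH.epsK_unit (T.card + 1) r x hr) (-(α : ℂ)) T (fun t ht => (hT.mem t ht).1)
    (fun t ht => hT.zero t ht) (fun t n hn => hT.hA δ hδ t n hn) (by rw [hα]; norm_num)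
    (fun n hn => hT.hND δ hδn n hn) (VH.epsK_pow _) N S hS r Q heq

include hm hH hind hb hL0 hL1 hT in
/-- **the order of the root, third case** -/
theorem point_C (hα : α = 1) (hTu : T = Finset.univ) :
    (Polynomial.X - Polynomial.C (-(α : ℂ))) ^ T.card ∣ b := by
  have key := point_core Λ m hm H hH hind b hb L hL0 hL1 ((-α : ℚ) : F) (fun _ => 2)
    (fun _ => Or.inl rfl) (T.card + 1) (by omega) 1 T.card (by omega) ?_
  · rwa [coe_neg] at key
  intro f0 f1 h0' h1 hf0 hf1 hh1 hb' hh N S hS r Q heq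
  rw [pow_one]
  rw [coe_neg] at heq
  exact VH.case_C (fun t => 6 / 2) (fun t => by norm_num)
    6 (by norm_num) (fun _ => 2) (fun t => by norm_num)
    (fun t => by norm_num) (fun _ =>
      MvPowerSeries.constantCoeff Λ.V) (fun _ => Λ.hV) Λ.x κ (fun t => a' t + m * a t) Λ.U Λ.hU
    Λ.jac f0 f1 h0' h1 hf0 hf1 hh1 hb' hh (VH.epsK (T.card + 1))
    (fun r x hr => VH.epsK_unit (T.card + 1) r x hr) (-(α : ℂ)) T (fun t ht => (hT.mem t ht).1)
    (fun t ht => hT.zero t ht) hTu (by rw [hα]; norm_num) (VH.epsK_pow _) N S hS r Q heq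

include hm hH hind hb hL0 hL1 hT in
/-- **the order of the root, fourth case** -/
theorem point_D (n : ℕ) (hn : 1 ≤ n) (hα : α = n) (hTu : T = Finset.univ) :
    (Polynomial.X - Polynomial.C (-(α : ℂ))) ^ (T.card - 1) ∣ b := by
  rcases Nat.eq_zero_or_pos T.card with h0 | h0
  · rw [h0, pow_zero]; exact one_dvd _
  have key := point_core Λ m hm H hH hind b hb L hL0 hL1 ((-α : ℚ) : F) (fun _ => 2)
    (fun _ => Or.inl rfl) T.card (by omega) 1 (T.card - 1) (by omega) ?_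
  · rwa [coe_neg] at key
  intro f0 f1 h0' h1 hf0 hf1 hh1 hb' hh N S hS r Q heq
  rw [pow_one]
  rw [coe_neg] at heq
  exact VH.case_D (fun t => 6 / 2) (fun t => by norm_num)
    6 (by norm_num) (fun _ => 2) (fun t => by norm_num)
    (fun t => by norm_num) (fun _ =>
      MvPowerSeries.constantCoeff Λ.V) (fun _ => Λ.hV) Λ.x κ (fun t => a' t + m * a t) Λ.U Λ.hU
    Λ.jac f0 f1 h0' h1 hf0 hf1 hh1 hb' hh (VH.epsK T.card)
    (fun r x hr => VH.epsK_unit T.card r x hr) (-(α : ℂ)) T (fun t ht => (hT.mem t ht).1)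
    (fun t ht => hT.zero t ht) hTu n hn (by rw [hα]; push_cast; rfl) (VH.epsK_pow _) N S hS r Q heq

end Point

end Pool.Agent.H63.VI
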