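import Pool.Agent.W425.GN.Univ

set_option autoImplicit false
set_option linter.unusedSectionVars false

/-! # From very general to general members of linear systems -/

namespace Pool.Agent.H63.VI

open MvPolynomial Pool.Agent.H628R4.TP Pool.Agent.W425.GN

variable {r N : ℕ}

/-- The powers of linear factors which divide the `b`-functions for very general coefficients divide
the `b`-functions for general coefficients. -/
theorem transfer (G : Fin r → MvPolynomial (Fin N) ℂ) (hG : ∃ μ, G μ ≠ 0) (α : ℚ) (m : ℕ)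
    (H : ∀ (θ : ℂ →+* ℂ) (a : Fin r → ℂ),
      (∀ P : MvPolynomial (Fin r) ℂ, eval₂ θ a P = 0 → P = 0) → ∀ b : Polynomial ℂ,
      IsBFunction (∑ μ, C (a μ) * map θ (G μ)) b →
        (Polynomial.X - Polynomial.C (α : ℂ)) ^ (m + 1) ∣ b) :
    ∃ g : MvPolynomial (Fin r) ℂ, g ≠ 0 ∧ ∀ a : Fin r → ℂ, eval a g ≠ 0 → ∀ b : Polynomial ℂ,
      IsBFunction (∑ μ, C (a μ) * G μ) b →
        (Polynomial.X - Polynomial.C (α : ℂ)) ^ (m + 1) ∣ b := by
  classical
  obtain ⟨ι0⟩ := Pool.Agent.W300.GN.f1 r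
  obtain ⟨μ0, hμ0⟩ := hG
  obtain ⟨ν0, hν0⟩ : ∃ ν, coeff ν (G μ0) ≠ 0 := by
    by_contra h
    push Not at h
    exact hμ0 (MvPolynomial.ext _ _ fun ν => by rw [h, coeff_zero])
  set A := MvPolynomial (Fin r) ℂ with hA
  set K := FractionRing A with hK
  have hchar : CharZero K := RingHom.charZero ι0
  set fgen : MvPolynomial (Fin N) A := ∑ μ, C (X μ) * map C (G μ) with hfgen
  set fK : MvPolynomial (Fin N) K := map (algebraMap A K) fgen with hfK
  set g0 : A := ∑ μ, X μ * C (coeff ν0 (G μ)) with hg0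
  have hcg : coeff ν0 fgen = g0 := by
    rw [hfgen, coeff_sum, hg0]
    refine Finset.sum_congr rfl fun μ _ => ?_
    rw [coeff_C_mul, coeff_map]
  have hg0ne : g0 ≠ 0 := by
    intro h1
    have h2 := congrArg (eval fun μ => if μ = μ0 then (1 : ℂ) else 0) h1
    rw [hg0, map_sum, map_zero, Finset.sum_eq_single μ0] at h2
    · rw [map_mul, eval_X, eval_C, if_pos rfl, one_mul] at h2
      exact hν0 h2
    · intro μ _ hμ
      rw [map_mul, eval_X, if_neg hμ, zero_mul]
    · intro h; exact absurd (Finset.mem_univ _) h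
  have hgenne : fgen ≠ 0 := by
    intro h1
    apply hg0ne
    rw [← hcg, h1, coeff_zero]
  have hinjA : Function.Injective (algebraMap A K) := IsFractionRing.injective A K
  have hfKne : fK ≠ 0 := by
    intro h1
    exact hgenne (MvPolynomial.map_injective _ hinjA (by rw [← hfK, h1, map_zero]))
  set θ : ℂ →+* ℂ := ι0.comp ((algebraMap A K).comp C) with hθ
  have hmapf : map ι0 fK = ∑ μ, C (ι0 (algebraMap A K (X μ))) * map θ (G μ) := by
    rw [hfK, hfgen, map_sum, map_sum]
    refine Finset.sum_congr rfl fun μ _ => ?_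
    rw [map_mul (map (algebraMap A K)), map_mul (map ι0), map_C, map_C, map_map, map_map, hθ,
      RingHom.comp_assoc]
  have hind : ∀ P : MvPolynomial (Fin r) ℂ,
      eval₂ θ (fun μ => ι0 (algebraMap A K (X μ))) P = 0 → P = 0 := by
    intro P hP
    have h1 : ∀ P : MvPolynomial (Fin r) ℂ,
        eval₂ θ (fun μ => ι0 (algebraMap A K (X μ))) P = ι0 (algebraMap A K P) := by
      intro P
      induction P using MvPolynomial.induction_on with
      | C c => rw [eval₂_C, hθ]; rfl
      | add p q hp hq => rw [eval₂_add, hp, hq, ← map_add, ← map_add]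
      | mul_X p j hp => rw [eval₂_mul, hp, eval₂_X, ← map_mul, ← map_mul]
    rw [h1] at hP
    have h2 : algebraMap A K P = 0 := (map_eq_zero_iff ι0 ι0.injective).1 hP
    exact (map_eq_zero_iff _ hinjA).1 h2
  have hnb : ¬ Bad (map ι0 fK) (α : ℂ) m := by
    refine Pool.Agent.W376.GN.taskB3 bernstein pA1 pA2 pA3 pA4 pA5 _ ?_ _ m fun b hb => ?_
    · intro h1
      exact hfKne (MvPolynomial.map_injective _ ι0.injective (by rw [h1, map_zero]))
    · refine H θ _ hind b ?_
      rw [← hmapf]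
      exact (bfun_iff _ b).2 hb
  have hnbK : ¬ Bad fK (α : K) m := by
    intro h1
    have h2 := h1.map ι0
    rw [map_ratCast] at h2
    exact hnb h2
  obtain ⟨Z, hZ⟩ := Pool.Agent.W486.GN.s2 pSW pG1 pA1 pA2 pA3 pA4 fK (α : K) m hnbK
  obtain ⟨g1, hg1, hg⟩ := Pool.Agent.W160.GN.taskF2 Z
  refine ⟨g1 * g0, mul_ne_zero hg1 hg0ne, fun a ha b hb => ?_⟩
  rw [map_mul] at ha
  obtain ⟨R, _, ι, j, e, hι, hZR, hιj, hej⟩ := hg a (left_ne_zero_of_mul ha)
  have he : Function.Surjective e := fun c => ⟨j (C c), by rw [hej, eval_C]⟩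
  have hid : (e.comp j).comp (C : ℂ →+* A) = RingHom.id ℂ := by
    ext c
    · simp [hej]
  have hfa : map e (map j fgen) = ∑ μ, C (a μ) * G μ := by
    rw [hfgen, map_sum, map_sum]
    refine Finset.sum_congr rfl fun μ _ => ?_
    rw [map_mul (map j), map_mul (map e), map_C, map_C, map_map, map_map, hej, eval_X, hid, map_id]
  have hne : ∑ μ, C (a μ) * G μ ≠ 0 := by
    intro h1
    have h2 := congrArg (coeff ν0) h1
    rw [coeff_zero, coeff_sum] at h2
    apply right_ne_zero_of_mul ha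
    rw [hg0, map_sum, ← h2]
    refine Finset.sum_congr rfl fun μ _ => ?_
    rw [coeff_C_mul, map_mul, eval_X, eval_C]
  have h5 := hZ ι hι hZR (map j fgen) (by
    rw [hfK, map_map]
    congr 2
    exact RingHom.ext fun x => hιj x) (j (C (α : ℂ))) (by
      rw [hιj]
      have h1 : algebraMap A K (C (α : ℂ)) = algebraMap ℂ K (α : ℂ) := rfl
      rw [h1, map_ratCast]) e he (by rw [hfa]; exact hne)
  rw [hfa, hej, eval_C] at h5
  exact Pool.Agent.W311.GN.b2 pA1 pA3 _ b ((bfun_iff _ b).1 hb) (α : ℂ) m h5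

end Pool.Agent.H63.VI
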