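import Pool.Agent.H63.VI.Weak
import Pool.Agent.H63.VI.Transfer

set_option autoImplicit false
set_option linter.unusedSectionVars false

/-! # The roots which come from a chart, for general members -/

namespace Pool.Agent.H63.VI

open MvPolynomial Pool.Agent.H63.VG Pool.Agent.H628R4.TP

/-- the transfer, for any index set -/
theorem transfer' {ι : Type} [Fintype ι] {N : ℕ} (G : ι → MvPolynomial (Fin N) ℂ)
    (hG : ∃ μ, G μ ≠ 0) (α : ℚ) (m : ℕ)
    (H : ∀ (θ : ℂ →+* ℂ) (a : ι → ℂ),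
      (∀ P : MvPolynomial ι ℂ, eval₂ θ a P = 0 → P = 0) → ∀ b : Polynomial ℂ,
      IsBFunction (∑ μ, C (a μ) * map θ (G μ)) b →
        (Polynomial.X - Polynomial.C (α : ℂ)) ^ (m + 1) ∣ b) :
    ∃ g : MvPolynomial ι ℂ, g ≠ 0 ∧ ∀ a : ι → ℂ, eval a g ≠ 0 → ∀ b : Polynomial ℂ,
      IsBFunction (∑ μ, C (a μ) * G μ) b →
        (Polynomial.X - Polynomial.C (α : ℂ)) ^ (m + 1) ∣ b := by
  obtain ⟨e⟩ : Nonempty (ι ≃ Fin (Fintype.card ι)) := ⟨Fintype.equivFin ι⟩
  obtain ⟨g, hg, hg'⟩ := transfer (fun μ => G (e.symm μ)) (by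
    obtain ⟨μ, hμ⟩ := hG
    exact ⟨e μ, by rwa [Equiv.symm_apply_apply]⟩) α m fun θ a ha b hb => by
      refine H θ (a ∘ e) (fun P hP => ?_) b ?_
      · have h1 : rename e P = 0 := ha _ (by rw [eval₂_rename]; exact hP)
        exact (map_eq_zero_iff _ (rename_injective e e.injective)).1 h1
      · rw [← Equiv.sum_comp e.symm]
        simpa using hb
  refine ⟨rename e.symm g, fun h => hg ((map_eq_zero_iff _ (rename_injective e.symm
    e.symm.injective)).1 h), fun a ha b hb => ?_⟩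
  rw [eval_rename] at ha
  refine hg' _ ha b ?_
  rw [← Equiv.sum_comp e.symm] at hb
  exact hb

theorem aeval_map_ps {σ : Type} (θ : ℂ →+* ℂ) (x : σ → MvPowerSeries σ ℂ)
    (P : MvPolynomial σ ℂ) : aeval (fun t => MvPowerSeries.map θ (x t)) (map θ P) =
      MvPowerSeries.map θ (aeval x P) := by
  induction P using MvPolynomial.induction_on with
  | C c =>
    rw [map_C, aeval_C, aeval_C, MvPowerSeries.algebraMap_apply, MvPowerSeries.algebraMap_apply,
      MvPowerSeries.map_C]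
    rfl
  | add p q hp hq =>
    rw [map_add (map θ), map_add (aeval _), hp, hq, ← map_add, ← map_add]
  | mul_X p j hp =>
    rw [map_mul (map θ), map_mul (aeval _), hp, map_X, aeval_X, map_mul (aeval x), aeval_X,
      map_mul]

theorem pderiv_map_ps {σ : Type} (θ : ℂ →+* ℂ) (t : σ) (f : MvPowerSeries σ ℂ) :
    MvPowerSeries.pderiv ℂ t (MvPowerSeries.map θ f) =
      MvPowerSeries.map θ (MvPowerSeries.pderiv ℂ t f) := by
  ext μ
  rw [MvPowerSeries.coeff_pderiv, MvPowerSeries.coeff_map, MvPowerSeries.coeff_map,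
    MvPowerSeries.coeff_pderiv, map_mul, map_add, map_natCast, map_one]

theorem fieldRange_comp (θ : ℂ →+* ℂ) :
    (algebraMap θ.fieldRange ℂ).comp θ.rangeRestrictField = θ := by
  ext r
  rfl

section Trans

variable {ρ σ : Type} [Fintype ρ] [DecidableEq ρ] [Fintype σ] [DecidableEq σ]
variable {P : MvPolynomial σ ℂ} {g : ρ → MvPolynomial σ ℂ} {κ a' a : σ → ℕ}

theorem map_prod_X (θ : ℂ →+* ℂ) (k : σ → ℕ) :
    MvPowerSeries.map θ (∏ t, (MvPowerSeries.X t : MvPowerSeries σ ℂ) ^ k t) =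
      ∏ t, MvPowerSeries.X t ^ k t := by
  rw [map_prod]
  refine Finset.prod_congr rfl fun t _ => ?_
  rw [map_pow, MvPowerSeries.map_X]

/-- the conjugate of a chart -/
noncomputable def Loc.trans (Λ : Loc P g κ a' a) (θ : ℂ →+* ℂ) :
    Loc (map (algebraMap θ.fieldRange ℂ) (map θ.rangeRestrictField P))
      (fun j => map (algebraMap θ.fieldRange ℂ) (map θ.rangeRestrictField (g j))) κ a' a where
  x t := MvPowerSeries.map θ (Λ.x t)
  U := MvPowerSeries.map θ Λ.U
  V := MvPowerSeries.map θ Λ.V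
  w j := MvPowerSeries.map θ (Λ.w j)
  jac := by
    have h1 := congrArg (MvPowerSeries.map θ) Λ.jac
    rw [map_mul, map_prod_X, RingHom.map_det] at h1
    rw [← h1]
    congr 1
    ext1 t i
    rw [Matrix.of_apply, RingHom.mapMatrix_apply, Matrix.map_apply, Matrix.of_apply,
      pderiv_map_ps]
  hU := by
    rw [MvPowerSeries.constantCoeff_map]
    exact fun h => Λ.hU ((map_eq_zero_iff θ θ.injective).1 h)
  hP := by
    rw [map_map, fieldRange_comp, aeval_map_ps, Λ.hP, map_mul, map_prod_X]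
  hV := by
    rw [MvPowerSeries.constantCoeff_map]
    exact fun h => Λ.hV ((map_eq_zero_iff θ θ.injective).1 h)
  hg j := by
    rw [map_map, fieldRange_comp, aeval_map_ps, Λ.hg, map_mul, map_prod_X]

end Trans

section Gen

variable {ρ : Type} [Fintype ρ] [DecidableEq ρ] {N : ℕ}
variable {P : MvPolynomial (Fin N) ℂ} {g : ρ → MvPolynomial (Fin N) ℂ} {κ a' a : Fin N → ℕ}

theorem gen_core (Λ : Loc P g κ a' a) (m : ℕ) (hv : ∃ ν, Λ.v m ν ≠ 0) (α : ℚ) (M : ℕ)
    (hM : ∀ (θ : ℂ →+* ℂ) (H : MvPolynomial ρ ℂ), H.IsHomogeneous m →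
      AlgebraicIndependent θ.fieldRange (fun ν : Ex ρ m => H.coeff ν.1) → ∀ b : Polynomial ℂ,
      IsBFunction (map (algebraMap θ.fieldRange ℂ) (map θ.rangeRestrictField P) *
        aeval (fun j => map (algebraMap θ.fieldRange ℂ) (map θ.rangeRestrictField (g j))) H) b →
      (Polynomial.X - Polynomial.C (-(α : ℂ))) ^ M ∣ b) :
    ∃ Γ : MvPolynomial (Ex ρ m) ℂ, Γ ≠ 0 ∧ ∀ H : MvPolynomial ρ ℂ, H.IsHomogeneous m →
      eval (fun ν => H.coeff ν.1) Γ ≠ 0 → ∀ b : Polynomial ℂ,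
        IsBFunction (P * aeval g H) b → (Polynomial.X - Polynomial.C (-(α : ℂ))) ^ M ∣ b := by
  rcases Nat.eq_zero_or_pos M with h0 | h0
  · exact ⟨1, one_ne_zero, fun H _ _ b _ => by rw [h0, pow_zero]; exact one_dvd _⟩
  obtain ⟨M', rfl⟩ : ∃ M', M = M' + 1 := ⟨M - 1, by omega⟩
  have hcast : (((-α : ℚ)) : ℂ) = -(α : ℂ) := by push_cast; rfl
  have hsys : ∀ (f : ρ → MvPolynomial (Fin N) ℂ) (Q : MvPolynomial (Fin N) ℂ) (H : MvPolynomial ρ ℂ),
      H.IsHomogeneous m → ∑ ν : Ex ρ m, C (H.coeff ν.1) * (Q * ∏ j, f j ^ ν.1 j) =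
        Q * aeval f H := by
    intro f Q H hH
    rw [form_expand m H hH, Finset.mul_sum]
    refine Finset.sum_congr rfl fun ν _ => ?_
    rw [algebraMap_eq]
    ring
  have hG : ∃ ν : Ex ρ m, P * ∏ j, g j ^ ν.1 j ≠ 0 := by
    -- some member is not zero
    obtain ⟨ν, hν⟩ := hv
    refine ⟨ν, fun hν0 => hν ?_⟩
    classical
    have h1 := hsys g P (frm (Pi.single ν 1)) (frm_homog _)
    have h2 : ∑ μ : Ex ρ m, C ((frm (Pi.single ν 1 : Ex ρ m → ℂ)).coeff μ.1) *
        (P * ∏ j, g j ^ μ.1 j) = 0 := by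
      refine Finset.sum_eq_zero fun μ _ => ?_
      rw [coeff_frm]
      by_cases h : μ = ν
      · rw [h, hν0, mul_zero]
      · rw [Pi.single_eq_of_ne h, map_zero, zero_mul]
    rw [h2] at h1
    have h3 := Λ.form m (frm (Pi.single ν 1)) (frm_homog _)
    rw [← h1, map_zero] at h3
    have h4 : (∏ t, (MvPowerSeries.X t : MvPowerSeries (Fin N) ℂ) ^ (a' t + m * a t)) ≠ 0 :=
      Finset.prod_ne_zero_iff.2 fun t _ => pow_ne_zero _ (by
        intro h
        have := congrArg (MvPowerSeries.coeff (Finsupp.single t 1)) h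
        rw [MvPowerSeries.coeff_X, if_pos rfl, map_zero] at this
        exact one_ne_zero this)
    have h5 := (mul_eq_zero.1 h3.symm).resolve_left h4
    have h6 := Λ.const m (frm (Pi.single ν 1)) (frm_homog _)
    rw [h5, map_zero, Finset.sum_eq_single ν] at h6
    · rw [coeff_frm, Pi.single_eq_same, one_mul] at h6
      exact h6.symm
    · intro μ _ hμ
      rw [coeff_frm, Pi.single_eq_of_ne hμ, zero_mul]
    · intro h; exact absurd (Finset.mem_univ _) h
  have hall : ∀ (θ : ℂ →+* ℂ) (c : Ex ρ m → ℂ),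
      (∀ P : MvPolynomial (Ex ρ m) ℂ, eval₂ θ c P = 0 → P = 0) → ∀ b : Polynomial ℂ,
      IsBFunction (∑ ν, C (c ν) * map θ (P * ∏ j, g j ^ ν.1 j)) b →
        (Polynomial.X - Polynomial.C (((-α : ℚ)) : ℂ)) ^ (M' + 1) ∣ b := by
    intro θ c hc b hb
    rw [hcast]
    refine hM θ (frm c) (frm_homog c) ?_ b ?_
    · have h1 : (fun ν : Ex ρ m => (frm c).coeff ν.1) = c := funext fun ν => coeff_frm c ν
      rw [h1, algebraicIndependent_iff]
      intro P' hP'
      obtain ⟨P0, rfl⟩ := map_surjective θ.rangeRestrictField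
        (fun x => by
          obtain ⟨x, y, rfl⟩ := x
          exact ⟨y, rfl⟩) P'
      rw [aeval_def, eval₂_map, fieldRange_comp] at hP'
      rw [hc P0 hP', map_zero]
    · rw [← hsys _ _ _ (frm_homog c)]
      refine (iff_of_eq (congrArg (fun f => IsBFunction f b) ?_)).1 hb
      refine Finset.sum_congr rfl fun ν _ => ?_
      rw [coeff_frm, map_mul, map_prod, map_map, fieldRange_comp]
      simp only [map_pow, map_map, fieldRange_comp]
  obtain ⟨Γ, hΓ, hΓ'⟩ := transfer' (fun ν : Ex ρ m => P * ∏ j, g j ^ ν.1 j) hG (-α) M' hall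
  refine ⟨Γ, hΓ, fun H hH hne b hb => ?_⟩
  rw [← hcast]
  exact hΓ' _ hne b (by rw [hsys g P H hH]; exact hb)

end Gen

end Pool.Agent.H63.VI
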