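import Pool.Agent.H63.VI.Point

set_option autoImplicit false
set_option linter.unusedSectionVars false

/-! # The roots which come from a chart, weak version -/

namespace Pool.Agent.H63.VI

open MvPolynomial Pool.Agent.H63.VG Pool.Agent.H628R4.TP

variable {ρ σ : Type} [Fintype ρ] [DecidableEq ρ] [Fintype σ] [DecidableEq σ] {κ a' a : σ → ℕ}
variable {F : Subfield ℂ} {p : MvPolynomial σ F} {q : ρ → MvPolynomial σ F}
  (Λ : Loc (map (algebraMap F ℂ) p) (fun j => map (algebraMap F ℂ) (q j)) κ a' a)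
  (m : ℕ) (hm : 3 ≤ m) (H : MvPolynomial ρ ℂ) (hH : H.IsHomogeneous m)
  (hind : AlgebraicIndependent F (fun ν : Ex ρ m => H.coeff ν.1)) (b : Polynomial ℂ)
  (hb : IsBFunction (map (algebraMap F ℂ) p * aeval (fun j => map (algebraMap F ℂ) (q j)) H) b)
  (L : Option σ → ρ → ℂ) (o : σ)
  (hL0 : ∀ t, t ≠ some o →
    ∑ j, L t j * MvPowerSeries.constantCoeff (Λ.w j) = if t = none then 1 else 0)
  (hL1 : ∀ t s, t ≠ o → s ≠ o →
    ∑ j, L (some t) j * MvPowerSeries.coeff (Finsupp.single s 1) (Λ.w j) = if s = t then 1 else 0)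

include hm hH hind hb hL0 hL1 in
/-- **the root, weak version** -/
theorem point_W (α : ℚ) (hT : Rat κ (fun t => a' t + m * a t) {o} α)
    (hTu : ({o} : Finset σ) ≠ Finset.univ) : b.eval (-(α : ℂ)) = 0 := by
  obtain ⟨δ, hδ, hδn⟩ := exists_delta {o} hTu α
  have hδ6 : ∀ t, 6 / δ t * δ t = 6 := fun t => by
    rcases hδ t with h | h <;> rw [h]
  have hδ0 : ∀ t, 6 / δ t ≠ 0 := fun t => by
    rcases hδ t with h | h <;> rw [h] <;> norm_num
  obtain ⟨e, he⟩ : ∃ e : σ → ℕ, e = fun t => if t = o then 7 else 6 / δ t := ⟨_, rfl⟩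
  have heo : e o = 7 := by rw [he]; simp
  have het : ∀ t, t ≠ o → e t = 6 / δ t := fun t ht => by rw [he]; simp [ht]
  obtain ⟨hT1, hT2, hT3⟩ := tangent_data e
    (fun t => by
      by_cases h : t = o
      · rw [h, heo]; norm_num
      · rw [het t h]
        rcases hδ t with h | h <;> rw [h]; norm_num) (Finset.univ.erase o) δ
    (fun t _ => hδ t) (fun t ht => by rw [het t (Finset.ne_of_mem_erase ht)]; exact hδ6 t)
    (fun t ht => by
      have : t = o := by
        by_contra h
        exact ht (Finset.mem_erase.2 ⟨h, Finset.mem_univ _⟩)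
      rw [this, heo]; norm_num) m L Λ.w Λ.V
    (fun t ht => by
      rw [hL0 _ (fun h => Finset.ne_of_mem_erase ht (Option.some_injective _ h)),
        if_neg (Option.some_ne_none t)])
    (by rw [hL0 _ (Option.some_ne_none o).symm, if_pos rfl])
    (fun t ht s hs => hL1 t s (Finset.ne_of_mem_erase ht) (Finset.ne_of_mem_erase hs))
  have hGh : (tform (Finset.univ.erase o) δ m L).IsHomogeneous m :=
    tform_homog _ _ _ _ fun t _ => by rcases hδ t with h | h <;> omega
  have hv := Λ.v_ne m (L none) (by rw [hL0 _ (Option.some_ne_none o).symm, if_pos rfl])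
  have hz := coe_neg F α
  rw [← hz]
  refine gen_main (sys p q m) (fun ν => H.coeff ν.1) hind (sys_ne Λ m hv) b ?_ ((-α : ℚ) : F)
    (fun ν => (tform (Finset.univ.erase o) δ m L).coeff ν.1) (Λ.v m) hv ?_ ?_
  · rw [member_form p q m H hH]
    exact hb
  · rw [← hT3, Λ.const m _ hGh]
  · intro e' he'' N S hS r Q heq
    have hf0 := Λ.form m _ hGh
    rw [← member_form p q m _ hGh] at hf0
    have he1 : member (sys p q m) e' = map (algebraMap F ℂ) p *
        aeval (fun j => map (algebraMap F ℂ) (q j)) (frm e') := by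
      rw [← member_form p q m _ (frm_homog e')]
      congr 1
      funext ν
      rw [coeff_frm]
    have hf1 := Λ.form m _ (frm_homog e')
    rw [← he1] at hf1
    rw [hz] at heq
    have hA0 : a' o + m * a o ≠ 0 := (hT.mem o (Finset.mem_singleton_self o)).1
    refine chart_main e (fun t => ?_) 6 δ (fun t => if t = o then 0 else
        MvPowerSeries.constantCoeff Λ.V) Λ.x o κ (fun t => a' t + m * a t) Λ.U Λ.hU Λ.jac _ _ _ _
      hf0 hf1 ?_ (if_pos rfl) (fun t ht => ?_) (fun t _ => ?_) (fun t ht => ?_) (by norm_num)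
      (fun t ht => ?_) (fun μ hμ => ?_) hA0 (-(α : ℂ)) ?_ (fun t _ n hn => hT.hA δ hδ t n hn)
      (fun n hn => ?_) N S hS r Q heq
    · by_cases h : t = o
      · rw [h, heo]; norm_num
      · rw [het t h]; exact hδ0 t
    · rw [Λ.const m _ (frm_homog e'), ← he'']
      refine Finset.sum_congr rfl fun ν _ => ?_
      rw [coeff_frm]
    · rw [if_neg ht]; exact Λ.hV
    · rcases hδ t with h | h <;> omega
    · rw [het t ht]; exact hδ6 t
    · rw [if_neg ht]; exact hT1 t (Finset.mem_erase.2 ⟨ht, Finset.mem_univ _⟩)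
    · rcases hT2 μ hμ with h | ⟨t, ht, h⟩
      · exact Or.inl h
      · exact Or.inr ⟨t, Finset.ne_of_mem_erase ht, h⟩
    · have h1 := hT.zero o (Finset.mem_singleton_self o)
      have h2 : ((a' o + m * a o : ℕ) : ℂ) ≠ 0 := Nat.cast_ne_zero.2 hA0
      rw [eq_comm, neg_eq_iff_eq_neg, neg_neg, div_eq_iff h2]
      linear_combination h1
    · have h1 := hT.hND δ hδn n hn
      rw [← Finset.sum_erase_add _ _ (Finset.mem_univ o), hT.zero o (Finset.mem_singleton_self o),
        zero_div, add_zero] at h1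
      exact h1

end Pool.Agent.H63.VI
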